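import Pool.Agent.Helper57.ZD.Defs

/-! Project ZD, piece Arith: the exponents of `(a / b) ^ 2` and the modulus. -/

set_option autoImplicit false

namespace Pool.ZD

open Finset Pool.Agent.Helper90.ZD

/-- The exponents of `(a / b) ^ 2`. -/
def kk (a b : ℕ) (q : ℕ) : ℤ := 2 * ((a.factorization q : ℤ) - (b.factorization q : ℤ))

/-- The modulus `∏ p ^ (v_p (c) / X)`. -/
def PP (c X : ℕ) : ℕ := ∏ p ∈ c.primeFactors, p ^ (c.factorization p / X)

theorem pp_dvd (c X : ℕ) (hc : 0 < c) : PP c X ^ X ∣ c := by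
  have h1 : c = ∏ p ∈ c.primeFactors, p ^ c.factorization p := by
    conv_lhs => rw [← Nat.prod_factorization_pow_eq_self hc.ne']
    rfl
  have h2 : PP c X ^ X = ∏ p ∈ c.primeFactors, p ^ (c.factorization p / X * X) := by
    unfold PP
    rw [← Finset.prod_pow]
    refine Finset.prod_congr rfl fun p _ => ?_
    rw [pow_mul]
  have h3 : (∏ p ∈ c.primeFactors, p ^ (c.factorization p / X * X)) ∣
      ∏ p ∈ c.primeFactors, p ^ c.factorization p :=
    Finset.prod_dvd_prod_of_dvd _ _ fun p _ => pow_dvd_pow p (Nat.div_mul_le_self _ _)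
  rw [h2]
  exact h3.trans (dvd_of_eq h1.symm)

private theorem arith_log (a : ℕ) (ha : 0 < a) (Q : Finset ℕ) (hQ : a.primeFactors ⊆ Q) :
    Real.log (a : ℝ) = ∑ q ∈ Q, (a.factorization q : ℝ) * Real.log q := by
  have h1 : Real.log (a : ℝ) = ∑ q ∈ a.primeFactors, (a.factorization q : ℝ) * Real.log q := by
    have h2 : (a : ℝ) = ∏ p ∈ a.primeFactors, (p : ℝ) ^ a.factorization p := by
      have h3 : a = ∏ p ∈ a.primeFactors, p ^ a.factorization p := by
        conv_lhs => rw [← Nat.prod_factorization_pow_eq_self ha.ne']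
        rfl
      conv_lhs => rw [h3]
      push_cast
      rfl
    conv_lhs => rw [h2]
    rw [Real.log_prod]
    · refine Finset.sum_congr rfl fun p _ => ?_
      rw [Real.log_pow]
    · intro p hp
      have := (Nat.prime_of_mem_primeFactors hp).pos
      positivity
  rw [h1]
  refine Finset.sum_subset hQ fun q _ hq => ?_
  have h4 : a.factorization q = 0 := by
    rw [← Finsupp.notMem_support_iff, Nat.support_factorization]
    exact hq
  rw [h4]
  simp

theorem pp_size (c X : ℕ) (hc : 0 < c) (hX : 1 ≤ X) :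
    Real.log c / X - Real.log ((∏ p ∈ c.primeFactors, p : ℕ) : ℝ) ≤ Real.log (PP c X : ℝ) ∧
      Real.log (PP c X : ℝ) ≤ Real.log c / X := by
  have hX' : (0 : ℝ) < X := by exact_mod_cast hX
  have h1 : Real.log (PP c X : ℝ) =
      ∑ p ∈ c.primeFactors, ((c.factorization p / X : ℕ) : ℝ) * Real.log p := by
    unfold PP
    push_cast
    rw [Real.log_prod]
    · refine Finset.sum_congr rfl fun p _ => ?_
      rw [Real.log_pow]
    · intro p hp
      have := (Nat.prime_of_mem_primeFactors hp).pos
      positivity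
  have h2 : Real.log ((∏ p ∈ c.primeFactors, p : ℕ) : ℝ) = ∑ p ∈ c.primeFactors, Real.log p := by
    push_cast
    rw [Real.log_prod]
    intro p hp
    have := (Nat.prime_of_mem_primeFactors hp).pos
    positivity
  have h3 : Real.log (c : ℝ) / X =
      ∑ p ∈ c.primeFactors, ((c.factorization p : ℝ) / X) * Real.log p := by
    rw [arith_log c hc c.primeFactors (Finset.Subset.refl _), Finset.sum_div]
    refine Finset.sum_congr rfl fun p _ => ?_
    ring
  rw [h1, h2, h3]
  constructor
  · rw [← Finset.sum_sub_distrib]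
    refine Finset.sum_le_sum fun p _ => ?_
    have hl : 0 ≤ Real.log (p : ℝ) := Real.log_natCast_nonneg p
    have h5 : (c.factorization p : ℝ) / X ≤ ((c.factorization p / X : ℕ) : ℝ) + 1 := by
      rw [div_le_iff₀ hX']
      have h6 := Nat.lt_div_mul_add (a := c.factorization p) (b := X) (by omega)
      have h7 : c.factorization p ≤ (c.factorization p / X + 1) * X := by
        rw [add_mul, one_mul]
        exact h6.le
      exact_mod_cast h7
    nlinarith
  · refine Finset.sum_le_sum fun p _ => ?_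
    have hl : 0 ≤ Real.log (p : ℝ) := Real.log_natCast_nonneg p
    exact mul_le_mul_of_nonneg_right Nat.cast_div_le hl

private theorem arith_cop (a b M q : ℕ) (hab : a.Coprime b) (hM : M ∣ a + b)
    (hq : q ∈ (a * b).primeFactors) : q.Coprime M := by
  have hp : q.Prime := Nat.prime_of_mem_primeFactors hq
  rw [Nat.Prime.coprime_iff_not_dvd hp]
  intro h
  have h1 : q ∣ a + b := h.trans hM
  have h2 : q ∣ a * b := Nat.dvd_of_mem_primeFactors hq
  have h3 : q ∣ a ∧ q ∣ b := by
    rcases (Nat.Prime.dvd_mul hp).1 h2 with h4 | h4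
    · exact ⟨h4, (Nat.dvd_add_right h4).1 h1⟩
    · exact ⟨(Nat.dvd_add_left h4).1 h1, h4⟩
  have h5 : q ∣ Nat.gcd a b := Nat.dvd_gcd h3.1 h3.2
  rw [hab] at h5
  exact hp.one_lt.ne' (Nat.dvd_one.1 h5)

private theorem arith_val (a M : ℕ) (ha : 0 < a) (Q : Finset ℕ) (hQ : a.primeFactors ⊆ Q)
    (hc : ∀ q ∈ Q, q.Coprime M) :
    ((∏ q ∈ Q, un M q ^ a.factorization q : (ZMod M)ˣ) : ZMod M) = (a : ZMod M) := by
  have h1 : (a : ZMod M) = ((∏ q ∈ Q, q ^ a.factorization q : ℕ) : ZMod M) := by
    congr 1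
    conv_lhs => rw [← Nat.prod_factorization_pow_eq_self ha.ne']
    refine Finsupp.prod_of_support_subset _ ?_ _ ?_
    · rw [Nat.support_factorization]
      exact hQ
    · intro i _
      exact pow_zero i
  rw [h1, Units.coe_prod]
  push_cast
  refine Finset.prod_congr rfl fun q hq => ?_
  unfold un
  rw [dif_pos (hc q hq), ZMod.coe_unitOfCoprime]

theorem kk_one (a b M : ℕ) (ha : 0 < a) (hb : 0 < b) (hab : a.Coprime b) (hM : M ∣ a + b) :
    ∏ q ∈ (a * b).primeFactors, un M q ^ kk a b q = 1 := by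
  have hc : ∀ q ∈ (a * b).primeFactors, q.Coprime M := fun q hq => arith_cop a b M q hab hM hq
  have hQa : a.primeFactors ⊆ (a * b).primeFactors := by
    rw [Nat.primeFactors_mul ha.ne' hb.ne']
    exact Finset.subset_union_left
  have hQb : b.primeFactors ⊆ (a * b).primeFactors := by
    rw [Nat.primeFactors_mul ha.ne' hb.ne']
    exact Finset.subset_union_right
  have h1 : ∏ q ∈ (a * b).primeFactors, un M q ^ kk a b q =
      (∏ q ∈ (a * b).primeFactors, un M q ^ a.factorization q) ^ 2 *
        ((∏ q ∈ (a * b).primeFactors, un M q ^ b.factorization q) ^ 2)⁻¹ := by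
    rw [← Finset.prod_pow, ← Finset.prod_pow, ← Finset.prod_inv_distrib, ← Finset.prod_mul_distrib]
    refine Finset.prod_congr rfl fun q _ => ?_
    unfold kk
    rw [mul_sub, zpow_sub]
    congr 1
    · rw [mul_comm, zpow_mul, zpow_natCast]
      exact zpow_ofNat _ 2
    · rw [mul_comm, zpow_mul, zpow_natCast]
      congr 1
  rw [h1, mul_inv_eq_one]
  apply Units.ext
  rw [Units.val_pow_eq_pow_val, Units.val_pow_eq_pow_val, arith_val a M ha _ hQa hc,
    arith_val b M hb _ hQb hc]
  have h2 : (a : ZMod M) = -(b : ZMod M) := by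
    rw [eq_neg_iff_add_eq_zero]
    have h3 : ((a + b : ℕ) : ZMod M) = 0 := (ZMod.natCast_eq_zero_iff _ _).2 hM
    push_cast at h3
    exact h3
  rw [h2, neg_sq]

theorem kk_size (a b : ℕ) (ha : 0 < a) (hb : 0 < b) (hab : a.Coprime b) :
    ∑ q ∈ (a * b).primeFactors, |(kk a b q : ℝ)| * Real.log q =
      2 * (Real.log a + Real.log b) := by
  have hQa : a.primeFactors ⊆ (a * b).primeFactors := by
    rw [Nat.primeFactors_mul ha.ne' hb.ne']
    exact Finset.subset_union_left
  have hQb : b.primeFactors ⊆ (a * b).primeFactors := by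
    rw [Nat.primeFactors_mul ha.ne' hb.ne']
    exact Finset.subset_union_right
  rw [arith_log a ha _ hQa, arith_log b hb _ hQb, ← Finset.sum_add_distrib, Finset.mul_sum]
  refine Finset.sum_congr rfl fun q hq => ?_
  have hp : q.Prime := Nat.prime_of_mem_primeFactors hq
  have h1 : a.factorization q = 0 ∨ b.factorization q = 0 := by
    by_contra h
    push Not at h
    have h2 : q ∣ a := Nat.dvd_of_factorization_pos h.1
    have h3 : q ∣ b := Nat.dvd_of_factorization_pos h.2
    have h4 : q ∣ Nat.gcd a b := Nat.dvd_gcd h2 h3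
    rw [hab] at h4
    exact hp.one_lt.ne' (Nat.dvd_one.1 h4)
  have h5 : |(kk a b q : ℝ)| = 2 * ((a.factorization q : ℝ) + b.factorization q) := by
    unfold kk
    push_cast
    rcases h1 with h | h
    · rw [h]
      have : (0 : ℝ) ≤ b.factorization q := Nat.cast_nonneg _
      rw [abs_of_nonpos (by push_cast; linarith)]
      push_cast
      ring
    · rw [h]
      have : (0 : ℝ) ≤ a.factorization q := Nat.cast_nonneg _
      rw [abs_of_nonneg (by push_cast; linarith)]
      push_cast
      ring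
  rw [h5]
  ring

end Pool.ZD
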