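import Mathlib

/-! Project ZD, piece Cop: counts. -/

set_option autoImplicit false

namespace Pool.ZD

open Finset

private theorem cop_le (N : ℕ) : N ≤ 2 ^ #N.primeFactors * N.totient := by
  have h1 := Nat.totient_mul_prod_primeFactors N
  have h2 : ∏ p ∈ N.primeFactors, p ≤ 2 ^ #N.primeFactors * ∏ p ∈ N.primeFactors, (p - 1) := by
    rw [← prod_const, ← prod_mul_distrib]
    refine prod_le_prod' fun p hp => ?_
    have := (Nat.prime_of_mem_primeFactors hp).two_le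
    omega
  have h3 : 0 < ∏ p ∈ N.primeFactors, p :=
    prod_pos fun p hp => (Nat.prime_of_mem_primeFactors hp).pos
  refine Nat.le_of_mul_le_mul_right ?_ h3
  calc N * ∏ p ∈ N.primeFactors, p ≤ N * (2 ^ #N.primeFactors *
        ∏ p ∈ N.primeFactors, (p - 1)) := Nat.mul_le_mul_left _ h2
    _ = 2 ^ #N.primeFactors * (N * ∏ p ∈ N.primeFactors, (p - 1)) := by ring
    _ = 2 ^ #N.primeFactors * (N.totient * ∏ p ∈ N.primeFactors, p) := by rw [h1]
    _ = _ := by ring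

private theorem cop_card (N y : ℕ) :
    #{s ∈ Icc 1 (N * y) | s.Coprime N} = y * N.totient := by
  induction y with
  | zero => simp
  | succ y ih =>
    have h1 : Icc 1 (N * (y + 1)) = Icc 1 (N * y) ∪ Ico (N * y + 1) (N * y + 1 + N) := by
      ext s
      simp only [mem_Icc, mem_union, mem_Ico, mul_add, mul_one]
      generalize N * y = z
      omega
    rw [h1, filter_union, card_union_of_disjoint, ih, add_mul, one_mul]
    · congr 1
      rw [← Nat.filter_coprime_Ico_eq_totient N (N * y + 1)]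
      congr 1
      ext s
      simp only [mem_filter, Nat.coprime_comm]
    · rw [disjoint_left]
      intro s hs hs'
      rw [mem_filter, mem_Icc] at hs
      rw [mem_filter, mem_Ico] at hs'
      omega

/-- The number of integers prime to `N`: `Nat.filter_coprime_Ico_eq_totient` for every block, and
`N ≤ 2 ^ ω φ(N)` (`Nat.totient_eq_mul_prod_factors`). -/
theorem cop_count (N y : ℕ) (hN : 0 < N) :
    N * y ≤ 2 ^ #N.primeFactors * #{s ∈ Icc 1 (N * y) | s.Coprime N} := by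
  rw [cop_card]
  calc N * y ≤ (2 ^ #N.primeFactors * N.totient) * y := Nat.mul_le_mul_right _ (cop_le N)
    _ = _ := by ring

/-- `K ^ ω(n) ≤ C n ^ δ`: `C = (K + 1) ^ #{p ≤ Z}` where `Z ^ δ ≥ K`. -/
theorem omega_bound (K : ℕ) (δ : ℝ) (hδ : 0 < δ) : ∃ C : ℝ, 1 ≤ C ∧ ∀ n : ℕ, 0 < n →
    (K : ℝ) ^ #n.primeFactors ≤ C * (n : ℝ) ^ δ := by
  obtain ⟨Z, hZ1, hZ⟩ : ∃ Z : ℕ, 1 ≤ Z ∧ ∀ p : ℕ, Z < p → (K : ℝ) ≤ (p : ℝ) ^ δ := by
    have h1 := ((tendsto_rpow_atTop hδ).comp tendsto_natCast_atTop_atTop).eventually_ge_atTop (K : ℝ)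
    obtain ⟨Z, hZ⟩ := Filter.eventually_atTop.mp h1
    exact ⟨Z + 1, by omega, fun p hp => hZ p (by omega)⟩
  refine ⟨((K : ℝ) + 1) ^ Z, one_le_pow₀ (by linarith [(Nat.cast_nonneg K : (0 : ℝ) ≤ K)]),
    fun n hn => ?_⟩
  have h1 : ∀ p ∈ n.primeFactors, (K : ℝ) ≤ (if p ≤ Z then (K : ℝ) + 1 else 1) * (p : ℝ) ^ δ := by
    intro p hp
    have hp1 : (1 : ℝ) ≤ p := by exact_mod_cast (Nat.prime_of_mem_primeFactors hp).one_lt.le
    have hK0 : (0 : ℝ) ≤ K := Nat.cast_nonneg K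
    split_ifs with h
    · have h2 : (1 : ℝ) ≤ (p : ℝ) ^ δ := Real.one_le_rpow hp1 hδ.le
      nlinarith
    · rw [one_mul]
      exact hZ p (by omega)
  have h2 : ((K : ℝ)) ^ #n.primeFactors ≤
      (∏ p ∈ n.primeFactors, (if p ≤ Z then (K : ℝ) + 1 else 1)) *
        ∏ p ∈ n.primeFactors, (p : ℝ) ^ δ := by
    rw [← prod_const, ← prod_mul_distrib]
    exact prod_le_prod (fun p _ => Nat.cast_nonneg K) h1
  have h3 : ∏ p ∈ n.primeFactors, (if p ≤ Z then (K : ℝ) + 1 else 1) ≤ ((K : ℝ) + 1) ^ Z := by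
    rw [← prod_filter, prod_const]
    refine pow_le_pow_right₀ (by linarith [(Nat.cast_nonneg K : (0 : ℝ) ≤ K)]) ?_
    calc #(filter (fun p => p ≤ Z) n.primeFactors) ≤ #(Icc 1 Z) := by
          refine card_le_card fun p hp => ?_
          rw [mem_filter] at hp
          rw [mem_Icc]
          exact ⟨(Nat.prime_of_mem_primeFactors hp.1).one_lt.le, hp.2⟩
      _ = Z := by simp
  have h4 : ∏ p ∈ n.primeFactors, (p : ℝ) ^ δ ≤ (n : ℝ) ^ δ := by
    rw [Real.finsetProd_rpow _ _ (fun p _ => Nat.cast_nonneg p)]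
    refine Real.rpow_le_rpow (prod_nonneg fun p _ => Nat.cast_nonneg p) ?_ hδ.le
    rw [← Nat.cast_prod]
    exact_mod_cast Nat.le_of_dvd hn (Nat.prod_primeFactors_dvd n)
  refine h2.trans (mul_le_mul h3 h4 (prod_nonneg fun p _ => Real.rpow_nonneg
    (Nat.cast_nonneg p) _) (by positivity))

end Pool.ZD
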