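import Pool.Agent.Helper57.ZD.Defs

/-! Project ZD, piece Pig: the pigeonhole. -/

set_option autoImplicit false

namespace Pool.ZD

open Finset Pool.Agent.Helper90.ZD

private theorem pig_pat_nonneg (A K : ℕ) (k : ℕ → ℤ) (j q : ℕ) (hA : 0 < A) :
    0 ≤ pat A K k j q := by
  have hA0 : (0 : ℤ) < (A : ℤ) := by exact_mod_cast hA
  unfold pat
  exact Int.ediv_nonneg (mul_nonneg (by positivity) (Int.emod_nonneg _ hA0.ne')) hA0.le

private theorem pig_pat_lt (A K : ℕ) (k : ℕ → ℤ) (j q : ℕ) (hA : 0 < A) (hK : 0 < K) :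
    pat A K k j q < (K : ℤ) := by
  have hA0 : (0 : ℤ) < (A : ℤ) := by exact_mod_cast hA
  have hK0 : (0 : ℤ) < (K : ℤ) := by exact_mod_cast hK
  unfold pat
  exact Int.ediv_lt_of_lt_mul hA0 (mul_lt_mul_of_pos_left (Int.emod_lt_of_pos _ hA0) hK0)

private theorem pig_un_inj (P s s' Y : ℕ) (hs : s.Coprime P) (hs' : s'.Coprime P) (h1 : s ≤ Y)
    (h2 : s' ≤ Y) (hY : Y < P) (h : un P s = un P s') : s = s' := by
  unfold un at h
  rw [dif_pos hs, dif_pos hs'] at h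
  have h3 := congrArg (fun u : (ZMod P)ˣ => (u : ZMod P)) h
  simp only [ZMod.coe_unitOfCoprime] at h3
  have h4 := (ZMod.natCast_eq_natCast_iff' _ _ _).1 h3
  rwa [Nat.mod_eq_of_lt (lt_of_le_of_lt h1 hY), Nat.mod_eq_of_lt (lt_of_le_of_lt h2 hY)] at h4

/-- Pigeonhole: the pairs `(j, s)`, `j < A`, `s ∈ ZZ`, against the residues of
`s ∏ q ^ x_j q` modulo `P` and the patterns (`0 ≤ pat < K`).  In a class `j` determines `s`
(`s ≤ Y < P`).  `Finset.exists_lt_card_fiber_of_mul_lt_card_of_maps_to`. -/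
theorem pigeon (r : ℕ) (Q : Finset ℕ) (k : ℕ → ℤ) (P A K Y : ℕ) (hQ : ∀ q ∈ Q, q.Prime)
    (hP : 2 ≤ P) (hQP : ∀ q ∈ Q, q.Coprime P) (hA : A.Prime) (hK : 1 ≤ K) (hYP : Y < P)
    (ZZ : Finset ℕ) (hZ : ∀ s ∈ ZZ, 1 ≤ s ∧ s ≤ Y ∧ s.Coprime P ∧ ∀ q ∈ Q, s.Coprime q)
    (hc : r * (P * K ^ #Q) < A * #ZZ) :
    ∃ j s : Fin (r + 1) → ℕ, Cls r Q k P A K j s ∧ ∀ i, s i ≤ Y := by
  classical
  have : NeZero P := ⟨by omega⟩
  set f : ℕ × ℕ → (ZMod P)ˣ × (Q → ℕ) := fun p =>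
    (un P p.2 * ∏ q ∈ Q, un P q ^ xx A k p.1 q, fun q => (pat A K k p.1 q).toNat) with hf
  set T : Finset ((ZMod P)ˣ × (Q → ℕ)) :=
    univ ×ˢ (Fintype.piFinset fun _ : Q => range K) with hT
  have hTc : #T * r < #(range A ×ˢ ZZ) := by
    have h1 : #T ≤ P * K ^ #Q := by
      rw [hT, card_product, card_univ, Fintype.card_piFinset]
      simp only [card_range, prod_const, card_univ, Fintype.card_coe]
      refine Nat.mul_le_mul_right _ ?_
      rw [ZMod.card_units_eq_totient]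
      exact Nat.totient_le P
    rw [card_product (range A) ZZ, card_range]
    calc #T * r ≤ P * K ^ #Q * r := Nat.mul_le_mul_right _ h1
      _ = r * (P * K ^ #Q) := mul_comm _ _
      _ < A * #ZZ := hc
  have hmap : ∀ p ∈ range A ×ˢ ZZ, f p ∈ T := by
    intro p _
    rw [hT, mem_product, Fintype.mem_piFinset]
    refine ⟨mem_univ _, fun q => ?_⟩
    rw [mem_range, hf]
    have h1 := pig_pat_nonneg A K k p.1 q hA.pos
    have h2 := pig_pat_lt A K k p.1 q hA.pos hK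
    show (pat A K k p.1 q).toNat < K
    omega
  obtain ⟨y, _, hy⟩ := exists_lt_card_fiber_of_mul_lt_card_of_maps_to hmap hTc
  obtain ⟨F, hF, hFc⟩ := exists_subset_card_eq (Nat.succ_le_of_lt hy)
  have e : Fin (r + 1) ≃ F := (F.equivFinOfCardEq hFc).symm
  have hmem : ∀ i, ((e i : ℕ × ℕ).1 < A ∧ (e i : ℕ × ℕ).2 ∈ ZZ) ∧ f (e i) = y := by
    intro i
    have h1 := hF (e i).2
    rw [mem_filter, mem_product, mem_range] at h1
    exact h1
  have hres : ∀ i i', un P (e i : ℕ × ℕ).2 * ∏ q ∈ Q, un P q ^ xx A k (e i : ℕ × ℕ).1 q =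
      un P (e i' : ℕ × ℕ).2 * ∏ q ∈ Q, un P q ^ xx A k (e i' : ℕ × ℕ).1 q := by
    intro i i'
    have h1 : f (e i) = f (e i') := (hmem i).2.trans (hmem i').2.symm
    exact congrArg Prod.fst h1
  refine ⟨fun i => (e i : ℕ × ℕ).1, fun i => (e i : ℕ × ℕ).2, ⟨hQ, hP, hQP, hA, hK, ?_, ?_, ?_,
    ?_, ?_, ?_, ?_⟩, ?_⟩
  · exact fun i => (hmem i).1.1
  · intro i i' h
    have h0 : (e i : ℕ × ℕ).1 = (e i' : ℕ × ℕ).1 := h
    have h1 := hres i i'
    rw [h0] at h1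
    have h2 := mul_right_cancel h1
    have hz := hZ _ (hmem i).1.2
    have hz' := hZ _ (hmem i').1.2
    have h3 := pig_un_inj P _ _ Y hz.2.2.1 hz'.2.2.1 hz.2.1 hz'.2.1 hYP h2
    exact e.injective (Subtype.ext (Prod.ext h0 h3))
  · exact fun i => (hZ _ (hmem i).1.2).1
  · exact fun i => (hZ _ (hmem i).1.2).2.2.1
  · exact fun i => (hZ _ (hmem i).1.2).2.2.2
  · intro i q hq
    have h1 : f (e i) = f (e 0) := (hmem i).2.trans (hmem 0).2.symm
    have h2 := congrFun (congrArg Prod.snd h1) ⟨q, hq⟩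
    have h3 : (pat A K k (e i : ℕ × ℕ).1 q).toNat = (pat A K k (e 0 : ℕ × ℕ).1 q).toNat := h2
    have h4 := pig_pat_nonneg A K k (e i : ℕ × ℕ).1 q hA.pos
    have h5 := pig_pat_nonneg A K k (e 0 : ℕ × ℕ).1 q hA.pos
    show pat A K k (e i : ℕ × ℕ).1 q = pat A K k (e 0 : ℕ × ℕ).1 q
    omega
  · exact fun i => hres i 0
  · exact fun i => (hZ _ (hmem i).1.2).2.1

end Pool.ZD
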