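import Pool.Agent.Helper57.ZD.Ineq
import Pool.Agent.Helper90.ZD.P8

/-! Project ZD, piece Core: the contradiction. -/

set_option autoImplicit false

namespace Pool.ZD

open Finset Pool.Agent.Helper90.ZD

private theorem co_sin (A : ℕ) (d : ℕ) (hd : 1 ≤ d) (hdA : d < A) :
    2 / (A : ℝ) ≤ Real.sin (Real.pi * d / A) := by
  have hA : (0 : ℝ) < A := by exact_mod_cast lt_of_le_of_lt (Nat.zero_le _) hdA
  have hd1 : (1 : ℝ) ≤ d := by exact_mod_cast hd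
  have hd2 : (d : ℝ) + 1 ≤ A := by exact_mod_cast hdA
  have hpi := Real.pi_pos
  by_cases h : (d : ℝ) / A ≤ 1 / 2
  · have h1 : 0 ≤ Real.pi * d / A := by positivity
    have h2 : Real.pi * d / A ≤ Real.pi / 2 := by
      have : Real.pi * d / A = Real.pi * (d / A) := by ring
      rw [this]
      nlinarith
    refine le_trans ?_ (Real.mul_le_sin h1 h2)
    have : 2 / Real.pi * (Real.pi * d / A) = 2 * d / A := by
      field_simp
    rw [this]
    gcongr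
    linarith
  · push Not at h
    have e : Real.sin (Real.pi * d / A) = Real.sin (Real.pi * ((A : ℝ) - d) / A) := by
      rw [← Real.sin_pi_sub]
      congr 1
      field_simp
    rw [e]
    have h1 : 0 ≤ Real.pi * ((A : ℝ) - d) / A := by
      apply div_nonneg (mul_nonneg hpi.le (by linarith)) hA.le
    have h2 : Real.pi * ((A : ℝ) - d) / A ≤ Real.pi / 2 := by
      have e2 : Real.pi * ((A : ℝ) - d) / A = Real.pi * (1 - d / A) := by
        field_simp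
      rw [e2]
      nlinarith
    refine le_trans ?_ (Real.mul_le_sin h1 h2)
    have : 2 / Real.pi * (Real.pi * ((A : ℝ) - d) / A) = 2 * ((A : ℝ) - d) / A := by
      field_simp
    rw [this]
    gcongr
    linarith

private theorem co_ee (x y : ℝ) : ‖ee x - ee y‖ = 2 * |Real.sin (Real.pi * (x - y))| := by
  have h1 : ee x - ee y = ee y * (Complex.exp (Complex.I * ((2 * Real.pi * (x - y) : ℝ) : ℂ)) - 1) := by
    unfold ee
    rw [mul_sub, mul_one, ← Complex.exp_add]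
    congr 2
    push_cast
    ring
  have h2 : ‖ee y‖ = 1 := by
    unfold ee
    have : (2 * (Real.pi : ℂ) * (y : ℂ) * Complex.I) = ((2 * Real.pi * y : ℝ) : ℂ) * Complex.I := by
      push_cast
      ring
    rw [this, Complex.norm_exp_ofReal_mul_I]
  rw [h1, norm_mul, h2, one_mul, Complex.norm_exp_I_mul_ofReal_sub_one, norm_mul, Real.norm_eq_abs,
    Real.norm_eq_abs, abs_of_pos (show (0 : ℝ) < 2 by norm_num)]
  congr 3
  ring

private theorem co_sep (A a b : ℕ) (ha : a < A) (hb : b < A) (hab : a ≠ b) :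
    4 / (A : ℝ) ≤ ‖ee ((a : ℝ) / A) - ee ((b : ℝ) / A)‖ := by
  wlog h : b < a generalizing a b
  · have h' : a < b := lt_of_le_of_ne (not_lt.1 h) hab
    rw [norm_sub_rev]
    exact this b a hb ha hab.symm h'
  rw [co_ee]
  have h1 := co_sin A (a - b) (by omega) (by omega)
  have h2 : Real.pi * ((a : ℝ) / A - b / A) = Real.pi * ((a - b : ℕ) : ℝ) / A := by
    rw [Nat.cast_sub h.le]
    ring
  rw [h2]
  have h3 := le_abs_self (Real.sin (Real.pi * ((a - b : ℕ) : ℝ) / A))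
  have h4 : (4 : ℝ) / A = 2 * (2 / A) := by ring
  rw [h4]
  linarith

private theorem co_fact (T : ℕ) : Real.log (T.factorial : ℝ) ≤ T * Real.log T := by
  have h1 : (T.factorial : ℝ) ≤ (T : ℝ) ^ T := by exact_mod_cast Nat.factorial_le_pow T
  have h2 : (0 : ℝ) < (T.factorial : ℝ) := by exact_mod_cast Nat.factorial_pos T
  have h3 := Real.log_le_log h2 h1
  rwa [Real.log_pow] at h3

/-- The numbers of columns. -/
private theorem co_dims (r X T1 : ℕ) (δ : ℝ) (hδ : 0 < δ) (hδ1 : δ ≤ 1 / 2) (hX : 1 ≤ X)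
    (hT : δ * X / 8 - 1 ≤ T1) (hT' : T1 ≤ X) (hX1 : 16 * ((r : ℝ) + 3) / δ ≤ X) :
    (#(JJ (r + 1) X) : ℝ) ≤ (16 * ((r : ℝ) + 1) / δ) ^ (r + 1) * #(JJ (r + 1) T1) ∧
      1 ≤ #(JJ (r + 1) T1) ∧ #(JJ (r + 1) T1) ≤ #(JJ (r + 1) X) := by
  have hr : (0 : ℝ) ≤ r := by positivity
  have hX0 : (0 : ℝ) < X := by exact_mod_cast hX
  have hX2 : 16 * ((r : ℝ) + 3) ≤ δ * X := by
    rw [div_le_iff₀ hδ] at hX1
    linarith
  have hT1 : (1 : ℝ) ≤ T1 := by nlinarith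
  have hT1' : 1 ≤ T1 := by exact_mod_cast hT1
  obtain ⟨m, hm⟩ : ∃ m : ℕ, m = T1 / (r + 1) := ⟨_, rfl⟩
  have hm1 : (r + 1) * m ≤ T1 := by
    rw [hm]
    exact Nat.mul_div_le T1 (r + 1)
  have hm2 : (T1 : ℝ) < ((r : ℝ) + 1) * (m + 1) := by
    have : T1 < (r + 1) * (m + 1) := by
      rw [hm]
      exact Nat.lt_mul_div_succ T1 (Nat.succ_pos r)
    exact_mod_cast this
  have hm3 : δ * X / (16 * ((r : ℝ) + 1)) ≤ m := by
    rw [div_le_iff₀ (by positivity)]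
    nlinarith
  have hcard := card_JJ_ge (r + 1) T1 m hT1' hm1
  have hcard' := card_JJ_le (r + 1) X
  refine ⟨?_, ?_, ?_⟩
  · have h1 : (#(JJ (r + 1) X) : ℝ) ≤ (X : ℝ) ^ (r + 1) := by exact_mod_cast hcard'
    have h2 : (m : ℝ) ^ (r + 1) ≤ #(JJ (r + 1) T1) := by exact_mod_cast hcard
    have h3 : (X : ℝ) ≤ 16 * ((r : ℝ) + 1) / δ * m := by
      calc (X : ℝ) = 16 * ((r : ℝ) + 1) / δ * (δ * X / (16 * ((r : ℝ) + 1))) := by
            field_simp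
        _ ≤ 16 * ((r : ℝ) + 1) / δ * m := by gcongr
    calc (#(JJ (r + 1) X) : ℝ) ≤ (X : ℝ) ^ (r + 1) := h1
      _ ≤ (16 * ((r : ℝ) + 1) / δ * m) ^ (r + 1) := pow_le_pow_left₀ hX0.le h3 _
      _ = (16 * ((r : ℝ) + 1) / δ) ^ (r + 1) * (m : ℝ) ^ (r + 1) := mul_pow _ _ _
      _ ≤ (16 * ((r : ℝ) + 1) / δ) ^ (r + 1) * #(JJ (r + 1) T1) := by gcongr
  · have hm0 : 1 ≤ m := by
      have : (0 : ℝ) < m := lt_of_lt_of_le (by positivity) hm3
      exact_mod_cast this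
    exact (Nat.one_le_pow _ _ hm0).trans hcard
  · refine card_le_card fun a ha => ?_
    rw [mem_JJ] at ha ⊢
    omega

/-- The final inequality. -/
private theorem co_num (δ Q0 X T1 C LP LY SL SK K n1 n2 T r : ℝ) (hδ : 0 < δ) (hδ1 : δ ≤ 1 / 2)
    (hQ0 : 0 ≤ Q0) (hr : 0 ≤ r) (hX : 100 / δ ≤ X) (hT1 : T1 ≤ δ * X / 8)
    (hC0 : 0 ≤ C) (hC : C ≤ (1 + δ / 4) * X) (hLY0 : 0 ≤ LY) (hLY : LY ≤ (1 - δ) * LP)
    (hSL : SL ≤ LP) (hSL0 : 0 ≤ SL) (hSK : SK ≤ 6 * X * LP) (hK : 16 / δ ≤ K) (hn2 : 1 ≤ n2)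
    (hn1 : n1 ≤ Q0 * n2) (hn : n2 ≤ n1) (hT : T = n1 + n2)
    (hTX : Real.log T ≤ (r + 2) * X) (hT0 : 0 ≤ Real.log T)
    (hLP : 100 * (2 * Q0 * (r + 2) + 2 * Q0 + 2) / δ ≤ LP)
    (h : n2 * ((X - T1) * LP) ≤ T * Real.log T + n1 * (C * Real.log 2) +
      n2 * (C * Real.log 2 + (C * LY + ((C / K) * SL + 2 * (δ / 100) * SK + SL)))) : False := by
  have hX0 : 0 < X := lt_of_lt_of_le (by positivity) hX
  have hK0 : 0 < K := lt_of_lt_of_le (by positivity) hK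
  have hl2 : Real.log 2 ≤ 1 := by linarith [Real.log_two_lt_d9]
  have hl2' : 0 ≤ Real.log 2 := Real.log_nonneg (by norm_num)
  have hC2 : C ≤ 2 * X := by nlinarith
  have hn1' : 0 ≤ n1 := by linarith
  have hLP0 : 0 < LP := lt_of_lt_of_le (by positivity) hLP
  have hLPb : 2 * Q0 * (r + 2) + 2 * Q0 + 2 ≤ δ / 100 * LP := by
    rw [div_le_iff₀ hδ] at hLP
    linarith
  -- the factorial
  have e1 : T * Real.log T ≤ n2 * (2 * Q0 * (r + 2) * X) := by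
    have hT2 : T ≤ 2 * Q0 * n2 := by linarith
    calc T * Real.log T ≤ (2 * Q0 * n2) * Real.log T := mul_le_mul_of_nonneg_right hT2 hT0
      _ ≤ (2 * Q0 * n2) * ((r + 2) * X) := mul_le_mul_of_nonneg_left hTX (by positivity)
      _ = n2 * (2 * Q0 * (r + 2) * X) := by ring
  have e2 : n1 * (C * Real.log 2) ≤ n2 * (2 * Q0 * X) := by
    have h1 : C * Real.log 2 ≤ 2 * X := by nlinarith
    calc n1 * (C * Real.log 2) ≤ n1 * (2 * X) := mul_le_mul_of_nonneg_left h1 hn1'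
      _ ≤ (Q0 * n2) * (2 * X) := mul_le_mul_of_nonneg_right hn1 (by positivity)
      _ = n2 * (2 * Q0 * X) := by ring
  have e3 : C * Real.log 2 ≤ 2 * X := by nlinarith
  have e4 : C * LY ≤ (1 + δ / 4) * X * ((1 - δ) * LP) :=
    mul_le_mul hC hLY hLY0 (by positivity)
  have e5 : (C / K) * SL ≤ δ / 8 * (X * LP) := by
    have h1 : C / K ≤ δ / 8 * X := by
      rw [div_le_iff₀ hK0]
      have h2 : 16 ≤ δ * K := by
        rw [div_le_iff₀ hδ] at hK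
        linarith
      nlinarith
    calc (C / K) * SL ≤ (δ / 8 * X) * LP :=
          mul_le_mul h1 hSL hSL0 (by positivity)
      _ = δ / 8 * (X * LP) := by ring
  have e6 : 2 * (δ / 100) * SK ≤ 2 * (δ / 100) * (6 * X * LP) :=
    mul_le_mul_of_nonneg_left hSK (by positivity)
  have e7 : SL ≤ δ / 100 * (X * LP) := by
    have h1 : 1 ≤ δ / 100 * X := by
      rw [div_le_iff₀ hδ] at hX
      linarith
    calc SL ≤ 1 * LP := by linarith
      _ ≤ (δ / 100 * X) * LP := mul_le_mul_of_nonneg_right h1 hLP0.le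
      _ = δ / 100 * (X * LP) := by ring
  have e8 : (1 - δ / 8) * (X * LP) ≤ (X - T1) * LP := by
    calc (1 - δ / 8) * (X * LP) = (X - δ * X / 8) * LP := by ring
      _ ≤ (X - T1) * LP := mul_le_mul_of_nonneg_right (by linarith) hLP0.le
  have e9 : n2 * ((X - T1) * LP) ≤ n2 * ((2 * Q0 * (r + 2) + 2 * Q0 + 2) * X +
      (1 + δ / 4) * X * ((1 - δ) * LP) + δ / 8 * (X * LP) + 2 * (δ / 100) * (6 * X * LP) +
      δ / 100 * (X * LP)) := by
    have h1 : n2 * (C * Real.log 2 + (C * LY + ((C / K) * SL + 2 * (δ / 100) * SK + SL))) ≤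
        n2 * (2 * X + ((1 + δ / 4) * X * ((1 - δ) * LP) + (δ / 8 * (X * LP) +
          2 * (δ / 100) * (6 * X * LP) + δ / 100 * (X * LP)))) :=
      mul_le_mul_of_nonneg_left (by linarith) (by linarith)
    refine h.trans ((add_le_add (add_le_add e1 e2) h1).trans (le_of_eq ?_))
    ring
  have e10 := le_of_mul_le_mul_left e9 (by linarith)
  have e11 : (2 * Q0 * (r + 2) + 2 * Q0 + 2) * X ≤ δ / 100 * LP * X :=
    mul_le_mul_of_nonneg_right hLPb hX0.le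
  have e12 : 0 < δ * (X * LP) := by positivity
  have e13 : 0 ≤ δ ^ 2 * (X * LP) := by positivity
  nlinarith

/-- The contradiction.  `ε = δ / 100`, `κ = δ / 20`, `T1 = ⌊δ X / 8⌋`, `C = ⌊(1 + δ / 4) X⌋`,
`J = ⌈4 / ε⌉`, `K ≥ 16 / δ`, `r + 2 ≥ n0 (ε / 2, κ)`, then `W` large.  `zeroEst` is used with
`‖ee (t i) - ee (t j)‖ ≥ 4 / A`. -/
theorem core (δ : ℝ) (hδ : 0 < δ) (hδ1 : δ ≤ 1 / 2) : ∃ (r K : ℕ) (W : ℝ), 1 ≤ K ∧ 1 ≤ W ∧
    ∀ (Q : Finset ℕ) (k : ℕ → ℤ) (P A X Y : ℕ) (j s : Fin (r + 2) → ℕ),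
    Cls (r + 1) Q k P A K j s → (∀ i, s i ≤ Y) → 1 ≤ Y →
    (∏ q ∈ Q, un (P ^ X) q ^ k q = 1) → W ≤ A → W * A ≤ X →
    (∃ q0 ∈ Q, W * A ≤ |(k q0 : ℝ)|) → W ≤ Real.log P → ∑ q ∈ Q, Real.log q ≤ Real.log P →
    ∑ q ∈ Q, |(k q : ℝ)| * Real.log q ≤ 6 * X * Real.log P →
    Real.log Y ≤ (1 - δ) * Real.log P → False := by
  obtain ⟨n0, hn0⟩ := zeroEst (δ / 100 / 2) (δ / 20) (by positivity) (by linarith) (by positivity)
    (by linarith)
  obtain ⟨W0, C0, hW0, hzero⟩ := hn0 (n0 + 2) (by omega)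
  obtain ⟨J, hJdef⟩ : ∃ J : ℕ, J = ⌈4 / (δ / 100)⌉₊ := ⟨_, rfl⟩
  obtain ⟨K, hKdef⟩ : ∃ K : ℕ, K = ⌈16 / δ⌉₊ := ⟨_, rfl⟩
  obtain ⟨Q0, hQ0def⟩ : ∃ Q0 : ℝ, Q0 = (16 * ((n0 : ℝ) + 1) / δ) ^ (n0 + 1) := ⟨_, rfl⟩
  have hQ0 : 0 ≤ Q0 := by rw [hQ0def]; positivity
  have hJ : 4 ≤ δ / 100 * ((J : ℝ) + 1) := by
    have h1 : 4 / (δ / 100) ≤ (J : ℝ) := by rw [hJdef]; exact Nat.le_ceil _
    rw [div_le_iff₀ (by positivity)] at h1
    linarith
  have hK : 16 / δ ≤ (K : ℝ) := by rw [hKdef]; exact Nat.le_ceil _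
  have hK1 : 1 ≤ K := by
    have : (0 : ℝ) < K := lt_of_lt_of_le (by positivity) hK
    exact_mod_cast this
  obtain ⟨W, hWdef⟩ : ∃ W : ℝ, W = 1 + W0 + C0 + (J + 1) + 16 * ((J : ℝ) + 1) / δ +
      16 * ((n0 : ℝ) + 3) / δ + 100 / δ + 100 * (2 * Q0 * (n0 + 2) + 2 * Q0 + 2) / δ := ⟨_, rfl⟩
  have hn0r : (0 : ℝ) ≤ n0 := by positivity
  have hJr : (0 : ℝ) ≤ J := by positivity
  have hC0r : (0 : ℝ) ≤ C0 := by positivity
  have p1 : 0 ≤ 16 * ((J : ℝ) + 1) / δ := by positivity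
  have p2 : 0 ≤ 16 * ((n0 : ℝ) + 3) / δ := by positivity
  have p3 : 0 ≤ 100 / δ := by positivity
  have p4 : 0 ≤ 100 * (2 * Q0 * (n0 + 2) + 2 * Q0 + 2) / δ := by positivity
  have hW1 : 1 ≤ W := by rw [hWdef]; linarith
  refine ⟨n0, K, W, hK1, hW1, ?_⟩
  intro Q k P A X Y j s H hs hY hk hWA hWAX hq0 hWP hlQ hnm hlY
  obtain ⟨q0, hq0, hkq0⟩ := hq0
  have hA1 : (1 : ℝ) ≤ A := hW1.trans hWA
  have hA0 : (0 : ℝ) < A := by linarith
  have hAnat : 0 < A := by exact_mod_cast hA0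
  have hWX : W ≤ X := by nlinarith
  have hX1 : (1 : ℝ) ≤ X := hW1.trans hWX
  have hXn : 1 ≤ X := by exact_mod_cast hX1
  have hX0 : (0 : ℝ) < X := by linarith
  have hXa : 16 * ((J : ℝ) + 1) / δ ≤ X := by rw [hWdef] at hWX; linarith
  have hXb : 16 * ((n0 : ℝ) + 3) / δ ≤ X := by rw [hWdef] at hWX; linarith
  have hXc : 100 / δ ≤ X := by rw [hWdef] at hWX; linarith
  have hXd : (C0 : ℝ) ≤ X := by rw [hWdef] at hWX; linarith
  have hLP : 100 * (2 * Q0 * (n0 + 2) + 2 * Q0 + 2) / δ ≤ Real.log P := by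
    rw [hWdef] at hWP; linarith
  have hWJ : (J : ℝ) + 1 ≤ W := by rw [hWdef]; linarith
  have hWW : W0 ≤ W := by rw [hWdef]; linarith
  obtain ⟨T1, hT1def⟩ : ∃ T1 : ℕ, T1 = ⌊δ * X / 8⌋₊ := ⟨_, rfl⟩
  obtain ⟨C, hCdef⟩ : ∃ C : ℕ, C = ⌊(1 + δ / 4) * X⌋₊ := ⟨_, rfl⟩
  have hT1a : (T1 : ℝ) ≤ δ * X / 8 := by rw [hT1def]; exact Nat.floor_le (by positivity)
  have hT1b : δ * X / 8 - 1 ≤ T1 := by
    rw [hT1def]; linarith [Nat.lt_floor_add_one (δ * (X : ℝ) / 8)]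
  have hCa : (C : ℝ) ≤ (1 + δ / 4) * X := by rw [hCdef]; exact Nat.floor_le (by positivity)
  have hCb : (1 + δ / 4) * X - 1 ≤ C := by
    rw [hCdef]; linarith [Nat.lt_floor_add_one ((1 + δ / 4) * (X : ℝ))]
  have hT1X : T1 ≤ X := by
    have : (T1 : ℝ) ≤ X := by nlinarith
    exact_mod_cast this
  have hXa' : 16 * ((J : ℝ) + 1) ≤ δ * X := by
    rw [div_le_iff₀ hδ] at hXa
    linarith
  have hCC : X + T1 + J ≤ C := by
    have : (X : ℝ) + T1 + J ≤ C := by nlinarith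
    exact_mod_cast this
  have hJA : J < A := by
    have : (J : ℝ) < A := by linarith
    exact_mod_cast this
  have hk0 : (J : ℝ) * A < K * |(k q0 : ℝ)| := by
    have hKr : (1 : ℝ) ≤ K := by exact_mod_cast hK1
    have h1 : (J : ℝ) * A < W * A := mul_lt_mul_of_pos_right (by linarith) hA0
    have h2 : |(k q0 : ℝ)| ≤ K * |(k q0 : ℝ)| := by
      nlinarith [abs_nonneg (k q0 : ℝ)]
    linarith
  -- the zero estimate
  have hZ : ∀ C' : ℕ, C' ≤ C → C ≤ C' + J → ∀ (β : ℝ) (p : MvPolynomial (Fin (n0 + 2)) ℂ),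
      p.totalDegree ≤ X + T1 →
      (∀ c ∈ Sig (n0 + 2) C', Int.fract (∑ i, ((j i : ℝ) / A) * c i - β) < δ / 100 / 2 →
        pv p c = 0) →
      ∀ c ∈ Sig (n0 + 2) C', pv p c = 0 := by
    intro C' hC1 hC2 β p hp hv
    have hC1r : (C' : ℝ) ≤ C := by exact_mod_cast hC1
    have hC2r : (C : ℝ) ≤ C' + J := by exact_mod_cast hC2
    have hC'X : X ≤ C' := by omega
    have hC'Xr : (X : ℝ) ≤ C' := by exact_mod_cast hC'X
    refine hzero C' (X + T1) ?_ ?_ (fun i => (j i : ℝ) / A) ?_ β p hp hv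
    · have : (C0 : ℝ) ≤ C' := hXd.trans hC'Xr
      exact_mod_cast this
    · push_cast
      have h1 : (1 + δ / 4) * X - (J + 1) ≤ C' := by linarith
      have h2 : (1 - δ / 20) * ((1 + δ / 4) * X - (J + 1)) ≤ (1 - δ / 20) * C' :=
        mul_le_mul_of_nonneg_left h1 (by linarith)
      refine le_trans ?_ h2
      nlinarith [mul_pos hδ hX0, mul_nonneg hδ.le hJr]
    · intro i i' hii
      have h1 := co_sep A (j i) (j i') (H.jlt i) (H.jlt i') (fun h => hii (H.jinj h))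
      refine le_trans ?_ h1
      rw [div_le_div_iff₀ (by linarith) hA0]
      nlinarith
  have hineq := ineq Q k P A K C X T1 J Y j s H hs (δ / 100) (by positivity) (by linarith) hJ hJA
    q0 hq0 hk0 hXn hT1X hk hCC hZ
  obtain ⟨hd1, hd2, hd3⟩ := co_dims n0 X T1 δ hδ hδ1 hXn hT1b hT1X hXb
  have hP2 : (2 : ℝ) ≤ P := by exact_mod_cast H.hP
  have hP0 : (0 : ℝ) < P := by linarith
  have hY0 : (0 : ℝ) < Y := by exact_mod_cast hY
  obtain ⟨n1, hn1⟩ : ∃ n1 : ℕ, n1 = #(JJ (n0 + 1) X) := ⟨_, rfl⟩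
  obtain ⟨n2, hn2⟩ : ∃ n2 : ℕ, n2 = #(JJ (n0 + 1) T1) := ⟨_, rfl⟩
  rw [← hn1, ← hn2] at hineq
  rw [← hn1, ← hn2] at hd1
  rw [← hn2] at hd2
  rw [← hn1, ← hn2] at hd3
  obtain ⟨S, hS⟩ : ∃ S : ℝ, S = ∑ q ∈ Q,
      ((C : ℝ) / K + 2 * (δ / 100) * |(k q : ℝ)| + 1) * Real.log q := ⟨_, rfl⟩
  rw [← hS] at hineq
  have hS' : S = ((C : ℝ) / K) * (∑ q ∈ Q, Real.log q) +
      2 * (δ / 100) * (∑ q ∈ Q, |(k q : ℝ)| * Real.log q) + ∑ q ∈ Q, Real.log q := by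
    rw [hS, Finset.mul_sum, Finset.mul_sum, ← Finset.sum_add_distrib, ← Finset.sum_add_distrib]
    refine Finset.sum_congr rfl fun q _ => ?_
    ring
  have hfp : (0 : ℝ) < ((n1 + n2).factorial : ℝ) := by exact_mod_cast Nat.factorial_pos _
  have hlog := Real.log_le_log (by positivity) hineq
  rw [Real.log_mul (by positivity) (by positivity), Real.log_mul (by positivity) (by positivity),
    Real.log_pow, Real.log_pow, Real.log_pow, Real.log_pow, Real.log_pow,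
    Real.log_mul (by positivity) (by positivity), Real.log_mul (by positivity) (by positivity),
    Real.log_exp, Real.log_pow, Real.log_pow, hS'] at hlog
  have hTX : Real.log ((n1 : ℝ) + n2) ≤ ((n0 : ℝ) + 2) * X := by
    have h1 : (n1 : ℝ) ≤ (X : ℝ) ^ (n0 + 1) := by
      rw [hn1]; exact_mod_cast card_JJ_le (n0 + 1) X
    have h2 : (n2 : ℝ) ≤ n1 := by exact_mod_cast hd3
    have h3 : (1 : ℝ) ≤ n2 := by exact_mod_cast hd2
    have h4 : (n1 : ℝ) + n2 ≤ 2 * (X : ℝ) ^ (n0 + 1) := by linarith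
    have h5 := Real.log_le_log (by linarith) h4
    rw [Real.log_mul (by norm_num) (by positivity), Real.log_pow] at h5
    have h6 : Real.log 2 ≤ 1 := by linarith [Real.log_two_lt_d9]
    have h7 : Real.log X ≤ X := Real.log_le_self hX0.le
    have h8 : ((n0 + 1 : ℕ) : ℝ) * Real.log X ≤ ((n0 : ℝ) + 1) * X := by
      push_cast
      exact mul_le_mul_of_nonneg_left h7 (by positivity)
    linarith
  have hT0 : 0 ≤ Real.log ((n1 : ℝ) + n2) := by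
    refine Real.log_nonneg ?_
    have h3 : (1 : ℝ) ≤ n2 := by exact_mod_cast hd2
    have : (0 : ℝ) ≤ n1 := by positivity
    linarith
  have hfact := co_fact (n1 + n2)
  push_cast at hfact
  have hXT : ((X - T1 : ℕ) : ℝ) = X - T1 := by
    rw [Nat.cast_sub hT1X]
  rw [hXT] at hlog
  refine co_num δ Q0 X T1 C (Real.log P) (Real.log Y) (∑ q ∈ Q, Real.log q)
    (∑ q ∈ Q, |(k q : ℝ)| * Real.log q) K n1 n2 (n1 + n2) n0 hδ hδ1 hQ0 hn0r hXc hT1a
    (by positivity) hCa (Real.log_nonneg (by exact_mod_cast hY)) hlY hlQ ?_ hnm hK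
    (by exact_mod_cast hd2) (by rw [hQ0def]; exact hd1) (by exact_mod_cast hd3) rfl hTX hT0 hLP ?_
  · refine Finset.sum_nonneg fun q hq => Real.log_nonneg ?_
    exact_mod_cast (H.hQ q hq).one_le
  · refine hlog.trans ?_
    linarith [hfact]

end Pool.ZD
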