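import Pool.Agent.Helper90.ZD.Defs

/-! Project ZD (MP_4ab349_nt), engine: `log c ≤ C rad(abc)^ε` for all abc triples.  Definitions.
Paper: note 2784.  The phases are `t i = j i / A`, all floors are integer divisions. -/

set_option autoImplicit false

namespace Pool.ZD

open Finset Pool.Agent.Helper90.ZD

/-- Product of binomials in the variables `c 1, …, c r`. -/
def bn {r : ℕ} (a : Fin r → ℕ) (c : Fin (r + 1) → ℕ) : ℕ := ∏ i : Fin r, (c i.succ).choose (a i)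

/-- The exponents of total degree `< X`. -/
def JJ (r X : ℕ) : Finset (Fin r → ℕ) :=
  (Fintype.piFinset fun _ => range X).filter fun a => ∑ i, a i < X

theorem mem_JJ {r X : ℕ} {a : Fin r → ℕ} : a ∈ JJ r X ↔ ∑ i, a i < X := by
  unfold JJ
  rw [mem_filter, Fintype.mem_piFinset]
  refine ⟨fun h => h.2, fun h => ⟨fun i => ?_, h⟩⟩
  rw [mem_range]
  exact lt_of_le_of_lt (single_le_sum (f := a) (fun _ _ => Nat.zero_le _) (mem_univ i)) h

/-- The unit of `ZMod M` given by a number prime to `M` (and `1` otherwise). -/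
noncomputable def un (M q : ℕ) : (ZMod M)ˣ :=
  if h : q.Coprime M then ZMod.unitOfCoprime q h else 1

/-- `∑ c i * j i`. -/
def dt {r : ℕ} (j c : Fin (r + 1) → ℕ) : ℕ := ∑ i, c i * j i

/-- `⌊j k / A⌋`. -/
def xx (A : ℕ) (k : ℕ → ℤ) (j q : ℕ) : ℤ := (j : ℤ) * k q / (A : ℤ)

/-- The pattern `⌊K {j k / A}⌋`. -/
def pat (A K : ℕ) (k : ℕ → ℤ) (j q : ℕ) : ℤ := (K : ℤ) * ((j : ℤ) * k q % (A : ℤ)) / (A : ℤ)

/-- The rows: `∑ c i = C` and `{t.c} < ε`. -/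
noncomputable def rows (r C A : ℕ) (j : Fin (r + 1) → ℕ) (ε : ℝ) : Finset (Fin (r + 1) → ℕ) :=
  (Sig (r + 1) C).filter fun c => ((dt j c % A : ℕ) : ℝ) < ε * A

/-- The exponent of `q` in the row `c`, before the normalisation. -/
def ev {r : ℕ} (A : ℕ) (k : ℕ → ℤ) (j c : Fin (r + 1) → ℕ) (q : ℕ) : ℤ :=
  ∑ i, (c i : ℤ) * xx A k (j i) q - ((dt j c / A : ℕ) : ℤ) * k q

/-- The number of the row `c`. -/
def RR {r : ℕ} (Q : Finset ℕ) (A : ℕ) (k g : ℕ → ℤ) (j s c : Fin (r + 1) → ℕ) : ℕ :=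
  (∏ i, s i ^ c i) * ∏ q ∈ Q, q ^ (ev A k j c q + g q).toNat

/-- A class: `r + 1` phases `j i / A` with integers `s i`, the same residue and pattern. -/
structure Cls (r : ℕ) (Q : Finset ℕ) (k : ℕ → ℤ) (P A K : ℕ) (j s : Fin (r + 1) → ℕ) :
    Prop where
  hQ : ∀ q ∈ Q, q.Prime
  hP : 2 ≤ P
  hQP : ∀ q ∈ Q, q.Coprime P
  hA : A.Prime
  hK : 1 ≤ K
  jlt : ∀ i, j i < A
  jinj : Function.Injective j
  spos : ∀ i, 1 ≤ s i
  sP : ∀ i, (s i).Coprime P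
  sQ : ∀ i, ∀ q ∈ Q, (s i).Coprime q
  pa : ∀ i, ∀ q ∈ Q, pat A K k (j i) q = pat A K k (j 0) q
  res : ∀ i, un P (s i) * ∏ q ∈ Q, un P q ^ xx A k (j i) q =
    un P (s 0) * ∏ q ∈ Q, un P q ^ xx A k (j 0) q

end Pool.ZD
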