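import Mathlib
import Pool.Agent.Helper89.ZD.Det

/-! Project ZD, piece Det: the determinant. -/

set_option autoImplicit false

namespace Pool.ZD

open Finset

/-- Independent columns have a nonzero minor. -/
theorem exists_minor {I T : Type} [Fintype I] [Fintype T] [DecidableEq T] (f : T → I → ℤ)
    (hind : ∀ x : T → ℚ, (∀ i, ∑ a, x a * (f a i : ℚ) = 0) → x = 0) :
    ∃ e : T → I, (Matrix.of fun a b : T => f a (e b)).det ≠ 0 := by
  obtain ⟨e, he⟩ := Pool.Agent.Helper89.ZD.exists_minor (fun j s => (f j s : ℚ)) hind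
  refine ⟨e, fun h => he ?_⟩
  have h1 : (Matrix.of fun i j : T => (f j (e i) : ℚ)) =
      ((Matrix.of fun a b : T => f a (e b)).transpose).map (Int.cast : ℤ → ℚ) := by
    ext i j
    rfl
  rw [h1, ← Int.cast_det, Matrix.det_transpose, h, Int.cast_zero]

/-- The determinant bound.  The minor of `exists_minor` (`T = J1 ⊕ J2`) does not change if
`g b - ∑ lam f` replaces `g b`, so it is divisible by `M ^ card J2`; Leibniz. -/
theorem det_bound {I J1 J2 : Type} [Fintype I] [Fintype J1] [Fintype J2] [DecidableEq J1]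
    [DecidableEq J2] (f : J1 → I → ℤ) (g : J2 → I → ℤ) (M : ℕ)
    (hdiv : ∀ b, ∃ lam : J1 → ℤ, ∀ i, (M : ℤ) ∣ g b i - ∑ a, lam a * f a i)
    (hind : ∀ (x : J1 → ℚ) (y : J2 → ℚ),
      (∀ i, ∑ a, x a * (f a i : ℚ) + ∑ b, y b * (g b i : ℚ) = 0) → x = 0 ∧ y = 0)
    (B1 B2 : ℝ) (hB1 : ∀ a i, |(f a i : ℝ)| ≤ B1) (hB2 : ∀ b i, |(g b i : ℝ)| ≤ B2) :
    (M : ℝ) ^ Fintype.card J2 ≤
      ((Fintype.card J1 + Fintype.card J2).factorial : ℝ) * B1 ^ Fintype.card J1 *
        B2 ^ Fintype.card J2 := by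
  obtain ⟨e, he⟩ := exists_minor (T := J1 ⊕ J2) (Sum.elim f g) (fun x hx => by
    have h1 := hind (fun j => x (Sum.inl j)) (fun j => x (Sum.inr j)) (fun i => by
      have := hx i
      rw [Fintype.sum_sum_type] at this
      exact this)
    funext j
    cases j with
    | inl j => exact congrFun h1.1 j
    | inr j => exact congrFun h1.2 j)
  let A : Matrix (J1 ⊕ J2) (J1 ⊕ J2) ℤ := Matrix.of fun i j => Sum.elim f g j (e i)
  have hA : A.det = (Matrix.of fun a b : J1 ⊕ J2 => Sum.elim f g a (e b)).det := by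
    rw [← Matrix.det_transpose]
    rfl
  have hA0 : A.det ≠ 0 := by
    rw [hA]
    exact he
  have hdvd : ((M : ℤ) ^ Fintype.card J2) ∣ A.det := by
    have h1 := Pool.Agent.Helper89.ZD.det_dvd A (M : ℤ) (fun _ => 1) (fun j => by
      obtain ⟨lam, hlam⟩ := hdiv j
      refine ⟨lam, fun i => ?_⟩
      rw [pow_one]
      exact hlam (e i))
    rw [Finset.sum_const, Finset.card_univ, smul_eq_mul, mul_one] at h1
    exact h1
  have h1 := Int.le_of_dvd (abs_pos.2 hA0) ((dvd_abs _ _).2 hdvd)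
  have h2 : (M : ℝ) ^ Fintype.card J2 ≤ |(A.det : ℝ)| := by
    have h3 : (((M : ℤ) ^ Fintype.card J2 : ℤ) : ℝ) ≤ ((|A.det| : ℤ) : ℝ) := by exact_mod_cast h1
    rw [Int.cast_abs, Int.cast_pow, Int.cast_natCast] at h3
    exact h3
  refine h2.trans ?_
  have h4 : (A.det : ℝ) = (A.map (Int.cast : ℤ → ℝ)).det := Int.cast_det A
  rw [h4, Matrix.det_apply]
  let B : J1 ⊕ J2 → ℝ := Sum.elim (fun _ => B1) (fun _ => B2)
  have hB : ∀ i j, |(A i j : ℝ)| ≤ B j := by
    intro i j
    cases j with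
    | inl j => exact hB1 j _
    | inr j => exact hB2 j _
  have hprod : ∏ j, B j = B1 ^ Fintype.card J1 * B2 ^ Fintype.card J2 := by
    rw [Fintype.prod_sum_type]
    simp only [B, Sum.elim_inl, Sum.elim_inr, Finset.prod_const, Finset.card_univ]
  calc |∑ σ : Equiv.Perm (J1 ⊕ J2), Equiv.Perm.sign σ • ∏ i, (A.map (Int.cast : ℤ → ℝ)) (σ i) i|
      ≤ ∑ σ : Equiv.Perm (J1 ⊕ J2), |Equiv.Perm.sign σ • ∏ i, (A.map (Int.cast : ℤ → ℝ)) (σ i) i| :=
        Finset.abs_sum_le_sum_abs _ _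
    _ ≤ ∑ _σ : Equiv.Perm (J1 ⊕ J2), ∏ j, B j := by
        refine Finset.sum_le_sum fun σ _ => ?_
        have h5 : |Equiv.Perm.sign σ • ∏ i, (A.map (Int.cast : ℤ → ℝ)) (σ i) i| =
            ∏ i, |(A (σ i) i : ℝ)| := by
          rcases Int.units_eq_one_or (Equiv.Perm.sign σ) with h | h
          · rw [h, one_smul, Finset.abs_prod]
            rfl
          · rw [h, Units.neg_smul, one_smul, abs_neg, Finset.abs_prod]
            rfl
        rw [h5]
        exact Finset.prod_le_prod (fun i _ => abs_nonneg _) fun i _ => hB _ _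
    _ = _ := by
        rw [Finset.sum_const, Finset.card_univ, Fintype.card_perm, Fintype.card_sum, nsmul_eq_mul, hprod]
        ring

end Pool.ZD
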