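import Pool.Agent.Helper57.ZD.Defs

/-! Project ZD, piece Dim: numbers of columns, sizes of binomials. -/

set_option autoImplicit false

namespace Pool.ZD

open Finset Pool.Agent.Helper90.ZD

theorem card_JJ_le (r X : ℕ) : #(JJ r X) ≤ X ^ r := by
  unfold JJ
  refine (card_filter_le _ _).trans ?_
  rw [Fintype.card_piFinset]
  simp

theorem card_JJ_ge (r X m : ℕ) (hX : 1 ≤ X) (h : r * m ≤ X) : m ^ r ≤ #(JJ r X) := by
  have h1 : #(Fintype.piFinset fun _ : Fin r => range m) = m ^ r := by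
    rw [Fintype.card_piFinset]
    simp
  rw [← h1]
  refine card_le_card fun a ha => ?_
  rw [Fintype.mem_piFinset] at ha
  rw [mem_JJ]
  have ha' : ∀ i, a i + 1 ≤ m := fun i => mem_range.1 (ha i)
  have h2 : ∑ i : Fin r, (a i + 1) ≤ ∑ _i : Fin r, m := sum_le_sum fun i _ => ha' i
  rw [sum_add_distrib] at h2
  simp only [sum_const, card_univ, Fintype.card_fin, smul_eq_mul, mul_one] at h2
  rcases Nat.eq_zero_or_pos r with hr | hr
  · subst hr
    simp only [univ_eq_empty, sum_empty]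
    omega
  · omega

theorem bn_le {r C : ℕ} (a : Fin r → ℕ) (c : Fin (r + 1) → ℕ) (hc : c ∈ Sig (r + 1) C) :
    bn a c ≤ 2 ^ C := by
  have hC : ∑ i, c i = C := (mem_piAntidiag.1 hc).1
  have h1 : bn a c ≤ ∏ i : Fin r, 2 ^ (c i.succ) := by
    unfold bn
    exact prod_le_prod' fun i _ => Nat.choose_le_two_pow _ _
  refine h1.trans ?_
  rw [prod_pow_eq_pow_sum]
  refine Nat.pow_le_pow_right (by norm_num) ?_
  rw [Fin.sum_univ_succ] at hC
  omega

end Pool.ZD
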