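import Pool.Agent.Helper57.ZD.Defs

/-! Project ZD, piece Exp1: the binomial theorem. -/

set_option autoImplicit false

namespace Pool.ZD

open Finset Pool.Agent.Helper90.ZD

private theorem exp1_one {R : Type} [CommRing R] (P u : R) (X n : ℕ) (hP : P ^ X = 0) :
    (1 + P * u) ^ n = ∑ k ∈ range X, P ^ k * u ^ k * ((n.choose k : ℕ) : R) := by
  have h1 : (1 + P * u) ^ n =
      ∑ k ∈ range (n + 1 + X), P ^ k * u ^ k * ((n.choose k : ℕ) : R) := by
    rw [add_comm, add_pow]
    have h2 : range (n + 1) ⊆ range (n + 1 + X) := range_subset_range.mpr (by omega)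
    rw [← sum_subset h2]
    · refine sum_congr rfl fun k _ => ?_
      rw [mul_pow, one_pow, mul_one]
    · intro k _ hk
      rw [mem_range, not_lt] at hk
      rw [Nat.choose_eq_zero_of_lt (by omega), Nat.cast_zero, mul_zero]
  have h3 : range X ⊆ range (n + 1 + X) := range_subset_range.mpr (by omega)
  rw [h1, ← sum_subset h3]
  intro k _ hk
  rw [mem_range, not_lt] at hk
  rw [pow_eq_zero_of_le hk hP, zero_mul, zero_mul]

/-- The binomial theorem in a ring where `P ^ X = 0`. -/
theorem binom_exp {R : Type} [CommRing R] {r : ℕ} (P : R) (X : ℕ) (hP : P ^ X = 0)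
    (u : Fin r → R) (c : Fin (r + 1) → ℕ) :
    ∏ i : Fin r, (1 + P * u i) ^ c i.succ =
      ∑ a ∈ JJ r X, P ^ (∑ i, a i) * (∏ i, u i ^ a i) * ((bn a c : ℕ) : R) := by
  classical
  have h1 : ∏ i : Fin r, (1 + P * u i) ^ c i.succ =
      ∑ a ∈ Fintype.piFinset (fun _ : Fin r => range X),
        P ^ (∑ i, a i) * (∏ i, u i ^ a i) * ((bn a c : ℕ) : R) := by
    have h2 : ∏ i : Fin r, (1 + P * u i) ^ c i.succ =
        ∏ i : Fin r, ∑ k ∈ range X, P ^ k * u i ^ k * (((c i.succ).choose k : ℕ) : R) :=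
      prod_congr rfl fun i _ => exp1_one P (u i) X (c i.succ) hP
    rw [h2, prod_univ_sum]
    refine sum_congr rfl fun a _ => ?_
    unfold bn
    rw [prod_mul_distrib, prod_mul_distrib, prod_pow_eq_pow_sum, Nat.cast_prod]
  rw [h1]
  symm
  unfold JJ
  refine sum_subset (filter_subset _ _) fun a ha hna => ?_
  have h3 : X ≤ ∑ i, a i := by
    by_contra hlt
    exact hna (mem_filter.mpr ⟨ha, not_le.mp hlt⟩)
  rw [pow_eq_zero_of_le h3 hP, zero_mul, zero_mul]

end Pool.ZD
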