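import Pool.Agent.Helper57.ZD.Exp0
import Pool.Agent.Helper57.ZD.Exp1

/-! Project ZD, piece Exp: the expansion modulo `P ^ X`. -/

set_option autoImplicit false

namespace Pool.ZD

open Finset Pool.Agent.Helper90.ZD

private theorem exp_un_val (M q : ℕ) (h : q.Coprime M) : ((un M q : (ZMod M)ˣ) : ZMod M) = q := by
  unfold un
  rw [dif_pos h, ZMod.coe_unitOfCoprime]

private theorem exp_un_map (P X q : ℕ) (hX : 1 ≤ X) (h : q.Coprime P) :
    Units.map (ZMod.castHom (dvd_pow_self P (by omega : X ≠ 0)) (ZMod P) : ZMod (P ^ X) →* ZMod P)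
      (un (P ^ X) q) = un P q := by
  ext
  rw [Units.coe_map, exp_un_val _ _ h, exp_un_val _ _ (h.pow_right X)]
  simp

private theorem exp_ker (P X : ℕ) (hX : 1 ≤ X) (z : ZMod (P ^ X)) [NeZero P]
    (h : ZMod.castHom (dvd_pow_self P (by omega : X ≠ 0)) (ZMod P) z = 0) :
    ∃ u : ZMod (P ^ X), z = (P : ZMod (P ^ X)) * u := by
  have : NeZero (P ^ X) := ⟨pow_ne_zero _ (NeZero.ne P)⟩
  have h1 : ((z.val : ℕ) : ZMod (P ^ X)) = z := ZMod.natCast_zmod_val z
  rw [← h1, map_natCast, ZMod.natCast_eq_zero_iff] at h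
  obtain ⟨t, ht⟩ := h
  refine ⟨(t : ZMod (P ^ X)), ?_⟩
  rw [← h1, ht]
  push_cast
  rfl

private theorem exp_lift (P X Y : ℕ) (hY : Y ≤ X) (x : ℤ) (y : ZMod (P ^ X)) [NeZero P]
    (h : (x : ZMod (P ^ X)) = (P : ZMod (P ^ X)) ^ Y * y) : ((P : ℤ) ^ Y) ∣ x := by
  have : NeZero (P ^ X) := ⟨pow_ne_zero _ (NeZero.ne P)⟩
  have h1 : ((y.val : ℕ) : ZMod (P ^ X)) = y := ZMod.natCast_zmod_val y
  have h2 : ((x - (P : ℤ) ^ Y * (y.val : ℤ) : ℤ) : ZMod (P ^ X)) = 0 := by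
    push_cast
    rw [h, h1, sub_self]
  rw [ZMod.intCast_zmod_eq_zero_iff_dvd] at h2
  have h3 : ((P : ℤ) ^ Y) ∣ ((P ^ X : ℕ) : ℤ) := by
    push_cast
    exact pow_dvd_pow _ hY
  have h4 := dvd_trans h3 h2
  exact (dvd_sub_left (Dvd.intro _ rfl)).mp h4

private theorem exp_prod_zpow {G ι : Type} [CommGroup G] (s : Finset ι) (f : ι → G)
    {κ : Type} (t : Finset κ) (e : ι → κ → ℤ) :
    ∏ q ∈ s, f q ^ (∑ i ∈ t, e q i) = ∏ i ∈ t, ∏ q ∈ s, f q ^ e q i := by
  classical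
  rw [prod_comm]
  refine prod_congr rfl fun q _ => ?_
  induction t using Finset.induction_on with
  | empty => simp
  | insert a t ha ih => rw [sum_insert ha, prod_insert ha, zpow_add, ih]

/-- The expansion.  In `ZMod (P ^ X)` let `y i = un (s i) * ∏ un q ^ x i q`; then
`y i / y 0 = 1 + P u i` (map to `ZMod P`, `H.res`), so `RR c = G y0 ^ C ∏ (1 + P u i) ^ c i` (the
factor `∏ un q ^ (-μ k q)` is `1` by `hk`), where `G = ∏ un q ^ g q`.  Use `binom_exp`, lift the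
coefficients to integers, multiply by `bn b c` and use `bn_mul`; the terms with
`|a| + |b| ≥ X` are divisible by `P ^ (X - |b|)`. -/
theorem expand {r : ℕ} (Q : Finset ℕ) (k g : ℕ → ℤ) (P A K X T1 C : ℕ)
    (j s : Fin (r + 1) → ℕ) (H : Cls r Q k P A K j s) (hX : 1 ≤ X) (hT : T1 ≤ X)
    (hk : ∏ q ∈ Q, un (P ^ X) q ^ k q = 1) (b : Fin r → ℕ) (hb : b ∈ JJ r T1) :
    ∃ lam : (Fin r → ℕ) → ℤ, ∀ c ∈ Sig (r + 1) C, (∀ q ∈ Q, 0 ≤ ev A k j c q + g q) →
      ((P : ℤ) ^ (X - T1)) ∣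
        (bn b c : ℤ) * (RR Q A k g j s c : ℤ) - ∑ a ∈ JJ r X, lam a * (bn a c : ℤ) := by
  classical
  have hP0 : P ≠ 0 := by
    have := H.hP
    omega
  have : NeZero P := ⟨hP0⟩
  have : NeZero (P ^ X) := ⟨pow_ne_zero _ hP0⟩
  set M : ℕ := P ^ X with hM
  set y : Fin (r + 1) → (ZMod M)ˣ := fun i => un M (s i) * ∏ q ∈ Q, un M q ^ xx A k (j i) q
    with hy
  set f : ZMod M →+* ZMod P := ZMod.castHom (dvd_pow_self P (by omega : X ≠ 0)) (ZMod P) with hf
  have hfy : ∀ i, Units.map (f : ZMod M →* ZMod P) (y i) =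
      Units.map (f : ZMod M →* ZMod P) (y 0) := by
    intro i
    have h1 : ∀ i, Units.map (f : ZMod M →* ZMod P) (y i) =
        un P (s i) * ∏ q ∈ Q, un P q ^ xx A k (j i) q := by
      intro i
      rw [hy]
      simp only
      rw [map_mul, map_prod, hf, exp_un_map P X (s i) hX (H.sP i)]
      congr 1
      refine prod_congr rfl fun q hq => ?_
      rw [map_zpow, exp_un_map P X q hX (H.hQP q hq)]
    rw [h1 i, h1 0, H.res i]
  have hu : ∀ i, ∃ u : ZMod M, ((y i : (ZMod M)ˣ) : ZMod M) =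
      ((y 0 : (ZMod M)ˣ) : ZMod M) * (1 + (P : ZMod M) * u) := by
    intro i
    have h1 : f (((y i / y 0 : (ZMod M)ˣ) : ZMod M) - 1) = 0 := by
      rw [map_sub, map_one, sub_eq_zero]
      have h2 : Units.map (f : ZMod M →* ZMod P) (y i / y 0) = 1 := by
        rw [map_div, hfy i, div_self']
      have h3 : ((Units.map (f : ZMod M →* ZMod P) (y i / y 0) : (ZMod P)ˣ) : ZMod P) = 1 := by
        rw [h2, Units.val_one]
      exact h3
    obtain ⟨u, hu⟩ := exp_ker P X hX _ h1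
    refine ⟨u, ?_⟩
    rw [← hu]
    have h4 : (y i : (ZMod M)ˣ) = y 0 * (y i / y 0) := by
      rw [mul_div_cancel]
    conv_lhs => rw [h4]
    rw [Units.val_mul]
    ring
  choose u hu using hu
  set Gu : (ZMod M)ˣ := ∏ q ∈ Q, un M q ^ g q with hGu
  -- the value of `RR`
  have hRR : ∀ c ∈ Sig (r + 1) C, (∀ q ∈ Q, 0 ≤ ev A k j c q + g q) →
      ((RR Q A k g j s c : ℕ) : ZMod M) =
        (Gu : ZMod M) * ((y 0 : (ZMod M)ˣ) : ZMod M) ^ C *
          ∏ i : Fin r, (1 + (P : ZMod M) * u i.succ) ^ c i.succ := by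
    intro c hc hpos
    have hcs : ∑ i, c i = C := (Finset.mem_piAntidiag.mp hc).1
    have h1 : ((RR Q A k g j s c : ℕ) : ZMod M) =
        ((∏ i, un M (s i) ^ c i) * ∏ q ∈ Q, un M q ^ (ev A k j c q + g q) : (ZMod M)ˣ) := by
      unfold RR
      push_cast
      congr 1
      · refine prod_congr rfl fun i _ => ?_
        rw [exp_un_val M (s i) ((H.sP i).pow_right X)]
      · refine prod_congr rfl fun q hq => ?_
        have h2 : ev A k j c q + g q = (((ev A k j c q + g q).toNat : ℕ) : ℤ) :=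
          (Int.toNat_of_nonneg (hpos q hq)).symm
        conv_rhs => rw [h2]
        rw [zpow_natCast]
        push_cast
        rw [exp_un_val M q ((H.hQP q hq).pow_right X)]
    have h3 : (∏ i, un M (s i) ^ c i) * ∏ q ∈ Q, un M q ^ (ev A k j c q + g q) =
        Gu * ∏ i, y i ^ c i := by
      have h4 : ∏ q ∈ Q, un M q ^ (ev A k j c q + g q) =
          (∏ q ∈ Q, un M q ^ (∑ i, (c i : ℤ) * xx A k (j i) q)) * Gu := by
        have h5 : ∏ q ∈ Q, un M q ^ (((dt j c / A : ℕ) : ℤ) * k q) = 1 := by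
          have h6 : ∏ q ∈ Q, un M q ^ (((dt j c / A : ℕ) : ℤ) * k q) =
              (∏ q ∈ Q, un M q ^ k q) ^ ((dt j c / A : ℕ) : ℤ) := by
            rw [← prod_zpow]
            refine prod_congr rfl fun q _ => ?_
            rw [← zpow_mul, mul_comm]
          rw [h6, hk, one_zpow]
        rw [hGu, ← prod_mul_distrib]
        rw [← mul_one (∏ q ∈ Q, un M q ^ (∑ i, (c i : ℤ) * xx A k (j i) q) * un M q ^ g q),
          ← inv_one, ← h5, ← prod_inv_distrib, ← prod_mul_distrib]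
        refine prod_congr rfl fun q _ => ?_
        rw [← zpow_neg, ← zpow_add, ← zpow_add]
        congr 1
        unfold ev
        ring
      have h7 : ∏ i, y i ^ c i = (∏ i, un M (s i) ^ c i) *
          ∏ q ∈ Q, un M q ^ (∑ i, (c i : ℤ) * xx A k (j i) q) := by
        rw [exp_prod_zpow, ← prod_mul_distrib]
        refine prod_congr rfl fun i _ => ?_
        rw [hy]
        simp only
        rw [mul_pow, ← prod_pow]
        congr 1
        refine prod_congr rfl fun q _ => ?_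
        rw [← zpow_natCast, ← zpow_mul, mul_comm]
      rw [h4, h7]
      ac_rfl
    rw [h1, h3]
    rw [Fin.prod_univ_succ] at *
    push_cast
    rw [← hcs, Fin.sum_univ_succ, pow_add, mul_assoc, mul_assoc]
    congr 2
    rw [← prod_pow_eq_pow_sum, ← prod_mul_distrib]
    refine prod_congr rfl fun i _ => ?_
    rw [← mul_pow, ← hu]
  have hbn := fun a : Fin r → ℕ => fun h : ∑ i, a i + ∑ i, b i < X => bn_mul a b X h
  set m : (Fin r → ℕ) → (Fin r → ℕ) → ℕ := fun a =>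
    if h : ∑ i, a i + ∑ i, b i < X then (hbn a h).choose else fun _ => 0 with hm
  have hmspec : ∀ a : Fin r → ℕ, ∑ i, a i + ∑ i, b i < X → ∀ c : Fin (r + 1) → ℕ,
      bn a c * bn b c = ∑ d ∈ JJ r X, m a d * bn d c := by
    intro a h c
    rw [hm]
    simp only [dif_pos h]
    exact (hbn a h).choose_spec c
  set S1 : Finset (Fin r → ℕ) := (JJ r X).filter fun a => ∑ i, a i + ∑ i, b i < X with hS1
  set S2 : Finset (Fin r → ℕ) := (JJ r X).filter fun a => ¬ (∑ i, a i + ∑ i, b i < X) with hS2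
  set co : (Fin r → ℕ) → ZMod M := fun a => (Gu : ZMod M) * ((y 0 : (ZMod M)ˣ) : ZMod M) ^ C *
    ((P : ZMod M) ^ (∑ i, a i) * ∏ i, u i.succ ^ a i) with hco
  set Lam : (Fin r → ℕ) → ZMod M := fun d => ∑ a ∈ S1, co a * (m a d : ZMod M) with hLam
  refine ⟨fun d => ((Lam d).val : ℤ), fun c hc hpos => ?_⟩
  have hPX : (P : ZMod M) ^ X = 0 := by
    have h1 : ((P ^ X : ℕ) : ZMod M) = 0 := by
      rw [ZMod.natCast_eq_zero_iff]
    exact_mod_cast h1
  have hbX : ∑ i, b i < T1 := mem_JJ.mp hb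
  have hexp := binom_exp (P : ZMod M) X hPX (fun i : Fin r => u i.succ) c
  have hmain : (((bn b c : ℤ) * (RR Q A k g j s c : ℤ) - ∑ a ∈ JJ r X,
      ((Lam a).val : ℤ) * (bn a c : ℤ) : ℤ) : ZMod M) =
      ∑ a ∈ S2, co a * ((bn a c * bn b c : ℕ) : ZMod M) := by
    push_cast
    have h1 : ∀ a ∈ JJ r X, (((Lam a).val : ℕ) : ZMod M) * (bn a c : ZMod M) =
        ∑ a' ∈ S1, co a' * ((m a' a * bn a c : ℕ) : ZMod M) := by
      intro a _
      rw [ZMod.natCast_zmod_val, hLam]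
      simp only
      rw [sum_mul]
      refine sum_congr rfl fun a' _ => ?_
      push_cast
      ring
    rw [sum_congr rfl h1, sum_comm]
    have h2 : ∀ a' ∈ S1, ∑ a ∈ JJ r X, co a' * ((m a' a * bn a c : ℕ) : ZMod M) =
        co a' * ((bn a' c * bn b c : ℕ) : ZMod M) := by
      intro a' ha'
      rw [← mul_sum, ← Nat.cast_sum, ← hmspec a' (mem_filter.mp ha').2 c]
    rw [sum_congr rfl h2, hRR c hc hpos, hexp]
    have h3 : (bn b c : ZMod M) * ((Gu : ZMod M) * ((y 0 : (ZMod M)ˣ) : ZMod M) ^ C *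
        ∑ a ∈ JJ r X, (P : ZMod M) ^ (∑ i, a i) * (∏ i, u i.succ ^ a i) * ((bn a c : ℕ) : ZMod M)) =
        ∑ a ∈ JJ r X, co a * ((bn a c * bn b c : ℕ) : ZMod M) := by
      rw [mul_sum, mul_sum]
      refine sum_congr rfl fun a _ => ?_
      rw [hco]
      push_cast
      ring
    rw [h3, ← sum_filter_add_sum_filter_not (JJ r X) (fun a => ∑ i, a i + ∑ i, b i < X)]
    rw [← hS1, ← hS2]
    push_cast
    ring
  have hdiv : ∃ z : ZMod M, ∑ a ∈ S2, co a * ((bn a c * bn b c : ℕ) : ZMod M) =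
      (P : ZMod M) ^ (X - T1) * z := by
    refine ⟨∑ a ∈ S2, (Gu : ZMod M) * ((y 0 : (ZMod M)ˣ) : ZMod M) ^ C *
      ((P : ZMod M) ^ (∑ i, a i - (X - T1)) * ∏ i, u i.succ ^ a i) *
        ((bn a c * bn b c : ℕ) : ZMod M), ?_⟩
    rw [mul_sum]
    refine sum_congr rfl fun a ha => ?_
    have h1 : ¬ (∑ i, a i + ∑ i, b i < X) := (mem_filter.mp ha).2
    have h2 : ∑ i, a i = (X - T1) + (∑ i, a i - (X - T1)) := by omega
    rw [hco]
    simp only
    conv_lhs => rw [h2, pow_add]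
    ring
  obtain ⟨z, hz⟩ := hdiv
  rw [hz] at hmain
  exact exp_lift P X (X - T1) (Nat.sub_le _ _) _ z hmain

end Pool.ZD
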