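import Pool.Agent.Helper57.ZD.Defs

/-! Project ZD, piece Exp0: products of binomials. -/

set_option autoImplicit false

namespace Pool.ZD

open Finset Pool.Agent.Helper90.ZD

private theorem exp0_one (n a k : ℕ) :
    n.choose a * n.choose k
      = ∑ ij ∈ antidiagonal k, a.choose ij.1 * (a + ij.2).choose a * n.choose (a + ij.2) := by
  rcases Nat.lt_or_ge n a with h | h
  · rw [Nat.choose_eq_zero_of_lt h, zero_mul]
    symm
    apply sum_eq_zero
    intro ij _
    rw [Nat.choose_eq_zero_of_lt (show n < a + ij.2 by omega), mul_zero]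
  · obtain ⟨d, rfl⟩ := Nat.exists_eq_add_of_le h
    rw [Nat.add_choose_eq a d k, mul_sum]
    apply sum_congr rfl
    intro ij _
    have h1 := Nat.choose_mul (n := a + d) (k := a + ij.2) (s := a) (Nat.le_add_right _ _)
    rw [Nat.add_sub_cancel_left, Nat.add_sub_cancel_left] at h1
    calc (a + d).choose a * (a.choose ij.1 * d.choose ij.2)
        = a.choose ij.1 * ((a + d).choose a * d.choose ij.2) := by ring
      _ = a.choose ij.1 * ((a + d).choose (a + ij.2) * (a + ij.2).choose a) := by rw [h1]
      _ = _ := by ring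

private def exp0_m (a b d : ℕ) : ℕ :=
  if a ≤ d ∧ d ≤ a + b then a.choose (b - (d - a)) * d.choose a else 0

private theorem exp0_range (n a b X : ℕ) (hX : a + b < X) :
    n.choose a * n.choose b = ∑ d ∈ range X, exp0_m a b d * n.choose d := by
  have h1 : ∑ d ∈ range X, exp0_m a b d * n.choose d
      = ∑ d ∈ (range (b + 1)).image (fun i => a + i), exp0_m a b d * n.choose d := by
    symm
    apply sum_subset
    · intro d hd
      rw [mem_image] at hd
      obtain ⟨i, hi, rfl⟩ := hd
      rw [mem_range] at hi ⊢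
      omega
    · intro d _ hd
      have h2 : ¬ (a ≤ d ∧ d ≤ a + b) := by
        intro h3
        apply hd
        rw [mem_image]
        exact ⟨d - a, by rw [mem_range]; omega, by omega⟩
      unfold exp0_m
      rw [if_neg h2, zero_mul]
  rw [h1, sum_image (fun x _ y _ hxy => by
    have : a + x = a + y := hxy
    omega), exp0_one n a b]
  rw [← Finset.Nat.sum_antidiagonal_swap]
  rw [Finset.Nat.sum_antidiagonal_eq_sum_range_succ_mk]
  apply sum_congr rfl
  intro i hi
  rw [mem_range] at hi
  unfold exp0_m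
  rw [if_pos ⟨by omega, by omega⟩]
  simp only [Prod.fst_swap, Prod.snd_swap]
  rw [Nat.add_sub_cancel_left]

/-- Products of binomials are integral combinations of binomials (one variable:
`choose c a * choose c b = ∑ d ∈ [max a b, a + b], m d * choose c d`, induction on `a`). -/
theorem bn_mul {r : ℕ} (a b : Fin r → ℕ) (X : ℕ) (hX : ∑ i, a i + ∑ i, b i < X) :
    ∃ m : (Fin r → ℕ) → ℕ, ∀ c : Fin (r + 1) → ℕ,
      bn a c * bn b c = ∑ d ∈ JJ r X, m d * bn d c := by
  refine ⟨fun d => ∏ i, exp0_m (a i) (b i) (d i), fun c => ?_⟩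
  have hab : ∀ i, a i + b i < X := by
    intro i
    have h1 : a i ≤ ∑ i, a i := single_le_sum (f := a) (fun _ _ => Nat.zero_le _) (mem_univ i)
    have h2 : b i ≤ ∑ i, b i := single_le_sum (f := b) (fun _ _ => Nat.zero_le _) (mem_univ i)
    omega
  have h1 : bn a c * bn b c
      = ∏ i : Fin r, ∑ d ∈ range X, exp0_m (a i) (b i) d * (c i.succ).choose d := by
    unfold bn
    rw [← prod_mul_distrib]
    exact prod_congr rfl fun i _ => exp0_range _ _ _ _ (hab i)
  rw [h1, prod_univ_sum]
  symm
  have h2 : ∀ d : Fin r → ℕ, (∏ i, exp0_m (a i) (b i) (d i)) * bn d c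
      = ∏ i, exp0_m (a i) (b i) (d i) * (c i.succ).choose (d i) := by
    intro d
    unfold bn
    rw [← prod_mul_distrib]
  rw [sum_congr rfl fun d _ => h2 d]
  apply sum_subset
  · intro d hd
    unfold JJ at hd
    exact (mem_filter.mp hd).1
  · intro d hd hd2
    rw [mem_JJ] at hd2
    have h3 : ∃ i, a i + b i < d i := by
      by_contra hcon
      push Not at hcon
      apply hd2
      calc ∑ i, d i ≤ ∑ i, (a i + b i) := sum_le_sum fun i _ => hcon i
        _ = ∑ i, a i + ∑ i, b i := sum_add_distrib
        _ < X := hX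
    obtain ⟨i, hi⟩ := h3
    apply prod_eq_zero (mem_univ i)
    unfold exp0_m
    rw [if_neg (by omega), zero_mul]

end Pool.ZD
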