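import Pool.Agent.Helper57.ZD.Defs

/-! Project ZD, piece Expo: the exponents and the size of the entries. -/

set_option autoImplicit false

namespace Pool.ZD

open Finset Pool.Agent.Helper90.ZD

/-- With `F i = j i k % A`, `f = dt j c % A`: `A ev = k f - ∑ c i F i`, `0 ≤ f < ε A`, and
`m A ≤ K F i < (m + 1) A` where `m` is the pattern.  Take
`g q = ⌈ε |k q| + C (m + 1) / K⌉`. -/
theorem expo {r : ℕ} (Q : Finset ℕ) (k : ℕ → ℤ) (A K C : ℕ) (j : Fin (r + 1) → ℕ) (ε : ℝ)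
    (hε : 0 < ε) (hA : 0 < A) (hK : 1 ≤ K)
    (hpa : ∀ i, ∀ q ∈ Q, pat A K k (j i) q = pat A K k (j 0) q) :
    ∃ g : ℕ → ℤ, ∀ c ∈ rows r C A j ε, ∀ q ∈ Q, 0 ≤ ev A k j c q + g q ∧
      ((ev A k j c q + g q : ℤ) : ℝ) ≤ (C : ℝ) / K + 2 * ε * |(k q : ℝ)| + 1 := by
  have hA0 : (0 : ℝ) < A := by exact_mod_cast hA
  have hAz : (0 : ℤ) < A := by exact_mod_cast hA
  have hK0 : (0 : ℝ) < K := by exact_mod_cast hK
  refine ⟨fun q => ⌈ε * |(k q : ℝ)| + C * ((pat A K k (j 0) q : ℤ) + 1 : ℝ) / K⌉, ?_⟩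
  intro c hc q hq
  unfold rows at hc
  rw [mem_filter, mem_piAntidiag] at hc
  obtain ⟨⟨hsum, -⟩, hf⟩ := hc
  set f : ℕ := dt j c % A with hfdef
  set m : ℤ := pat A K k (j 0) q with hm
  -- the identity
  have hid : (A : ℤ) * ev A k j c q = k q * f - ∑ i, (c i : ℤ) * ((j i : ℤ) * k q % (A : ℤ)) := by
    have h1 : ∀ i, (A : ℤ) * xx A k (j i) q = (j i : ℤ) * k q - (j i : ℤ) * k q % (A : ℤ) := by
      intro i
      unfold xx
      have := Int.mul_ediv_add_emod ((j i : ℤ) * k q) (A : ℤ)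
      linarith
    have h2 : ((dt j c : ℕ) : ℤ) = (A : ℤ) * ((dt j c / A : ℕ) : ℤ) + f := by
      rw [hfdef]
      exact_mod_cast (Nat.div_add_mod (dt j c) A).symm
    have h3 : ((dt j c : ℕ) : ℤ) = ∑ i, (c i : ℤ) * j i := by
      unfold dt
      push_cast
      rfl
    unfold ev
    rw [mul_sub, mul_sum]
    have h4 : ∑ i, (A : ℤ) * ((c i : ℤ) * xx A k (j i) q)
        = (∑ i, (c i : ℤ) * j i) * k q - ∑ i, (c i : ℤ) * ((j i : ℤ) * k q % (A : ℤ)) := by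
      rw [sum_mul, ← sum_sub_distrib]
      refine sum_congr rfl fun i _ => ?_
      linear_combination (c i : ℤ) * h1 i
    rw [h4, ← h3]
    linear_combination (k q) * h2
  -- bounds of the fractional parts
  have hF : ∀ i, (m : ℝ) * A ≤ K * (((j i : ℤ) * k q % (A : ℤ) : ℤ) : ℝ) ∧
      (K : ℝ) * (((j i : ℤ) * k q % (A : ℤ) : ℤ) : ℝ) ≤ (m + 1) * A := by
    intro i
    have h1 := hpa i q hq
    rw [← hm] at h1
    unfold pat at h1
    have h2 := Int.mul_ediv_add_emod ((K : ℤ) * ((j i : ℤ) * k q % (A : ℤ))) (A : ℤ)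
    have h3 := Int.emod_nonneg ((K : ℤ) * ((j i : ℤ) * k q % (A : ℤ))) hAz.ne'
    have h4 := Int.emod_lt_of_pos ((K : ℤ) * ((j i : ℤ) * k q % (A : ℤ))) hAz
    rw [h1] at h2
    constructor
    · have : m * (A : ℤ) ≤ (K : ℤ) * ((j i : ℤ) * k q % (A : ℤ)) := by linarith
      exact_mod_cast this
    · have : (K : ℤ) * ((j i : ℤ) * k q % (A : ℤ)) ≤ (m + 1) * (A : ℤ) := by linarith
      exact_mod_cast this
  have hCs : ∑ i, (c i : ℝ) = C := by
    rw [← hsum]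
    push_cast
    rfl
  have hS1 : (C : ℝ) * m * A ≤ K * ∑ i, (c i : ℝ) * (((j i : ℤ) * k q % (A : ℤ) : ℤ) : ℝ) := by
    rw [← hCs, sum_mul, sum_mul, mul_sum]
    refine sum_le_sum fun i _ => ?_
    have := mul_le_mul_of_nonneg_left (hF i).1 (Nat.cast_nonneg (α := ℝ) (c i))
    linarith
  have hS2 : K * ∑ i, (c i : ℝ) * (((j i : ℤ) * k q % (A : ℤ) : ℤ) : ℝ)
      ≤ (C : ℝ) * (m + 1) * A := by
    rw [← hCs, sum_mul, sum_mul, mul_sum]
    refine sum_le_sum fun i _ => ?_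
    have := mul_le_mul_of_nonneg_left (hF i).2 (Nat.cast_nonneg (α := ℝ) (c i))
    linarith
  have hidR : (A : ℝ) * ((ev A k j c q : ℤ) : ℝ)
      = (k q : ℝ) * f - ∑ i, (c i : ℝ) * (((j i : ℤ) * k q % (A : ℤ) : ℤ) : ℝ) := by
    exact_mod_cast congrArg (Int.cast (R := ℝ)) hid
  have hf0 : (0 : ℝ) ≤ f := Nat.cast_nonneg _
  have hkf1 : (k q : ℝ) * f ≤ ε * |(k q : ℝ)| * A := by
    calc (k q : ℝ) * f ≤ |(k q : ℝ)| * f := mul_le_mul_of_nonneg_right (le_abs_self _) hf0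
      _ ≤ |(k q : ℝ)| * (ε * A) := mul_le_mul_of_nonneg_left hf.le (abs_nonneg _)
      _ = ε * |(k q : ℝ)| * A := by ring
  have hkf2 : -(ε * |(k q : ℝ)| * A) ≤ (k q : ℝ) * f := by
    have : -(k q : ℝ) * f ≤ ε * |(k q : ℝ)| * A := by
      calc -(k q : ℝ) * f ≤ |(k q : ℝ)| * f := mul_le_mul_of_nonneg_right (neg_le_abs _) hf0
        _ ≤ |(k q : ℝ)| * (ε * A) := mul_le_mul_of_nonneg_left hf.le (abs_nonneg _)
        _ = ε * |(k q : ℝ)| * A := by ring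
    linarith
  have hS1' : (C : ℝ) * m / K * A ≤ ∑ i, (c i : ℝ) * (((j i : ℤ) * k q % (A : ℤ) : ℤ) : ℝ) := by
    rw [div_mul_eq_mul_div, div_le_iff₀ hK0]
    linarith
  have hS2' : ∑ i, (c i : ℝ) * (((j i : ℤ) * k q % (A : ℤ) : ℤ) : ℝ)
      ≤ (C : ℝ) * (m + 1) / K * A := by
    rw [div_mul_eq_mul_div, le_div_iff₀ hK0]
    linarith
  have hlow : -(ε * |(k q : ℝ)| + C * (m + 1) / K) ≤ ((ev A k j c q : ℤ) : ℝ) := by
    refine le_of_mul_le_mul_left ?_ hA0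
    rw [hidR]
    linarith
  have hup : ((ev A k j c q : ℤ) : ℝ) ≤ ε * |(k q : ℝ)| - C * m / K := by
    refine le_of_mul_le_mul_left ?_ hA0
    rw [hidR]
    linarith
  have hc1 := Int.le_ceil (ε * |(k q : ℝ)| + C * ((m : ℤ) + 1 : ℝ) / K)
  have hc2 := Int.ceil_lt_add_one (ε * |(k q : ℝ)| + C * ((m : ℤ) + 1 : ℝ) / K)
  constructor
  · have : (0 : ℝ) ≤ ((ev A k j c q + ⌈ε * |(k q : ℝ)| + C * ((m : ℤ) + 1 : ℝ) / K⌉ : ℤ) : ℝ) := by
      push_cast
      linarith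
    exact_mod_cast this
  · push_cast
    have h5 : (C : ℝ) * (m + 1) / K = C * m / K + C / K := by ring
    linarith

/-- The size of an entry. -/
theorem rr_le {r : ℕ} (Q : Finset ℕ) (hQ : ∀ q ∈ Q, q.Prime) (k g : ℕ → ℤ) (A C Y : ℕ)
    (j s c : Fin (r + 1) → ℕ) (hc : c ∈ Sig (r + 1) C) (hs : ∀ i, s i ≤ Y) (u : ℕ → ℝ)
    (h : ∀ q ∈ Q, 0 ≤ ev A k j c q + g q ∧ ((ev A k j c q + g q : ℤ) : ℝ) ≤ u q) :
    (RR Q A k g j s c : ℝ) ≤ (Y : ℝ) ^ C * Real.exp (∑ q ∈ Q, u q * Real.log q) := by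
  rw [mem_piAntidiag] at hc
  unfold RR
  push_cast
  refine mul_le_mul ?_ ?_ (prod_nonneg fun q _ => by positivity) (by positivity)
  · rw [← hc.1, ← prod_pow_eq_pow_sum]
    refine prod_le_prod (fun i _ => by positivity) fun i _ => ?_
    exact pow_le_pow_left₀ (by positivity) (by exact_mod_cast hs i) _
  · rw [Real.exp_sum]
    refine prod_le_prod (fun q _ => by positivity) fun q hq => ?_
    have hq0 : (0 : ℝ) < q := by exact_mod_cast (hQ q hq).pos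
    have hlog : 0 ≤ Real.log q := Real.log_nonneg (by exact_mod_cast (hQ q hq).one_lt.le)
    obtain ⟨h0, h1⟩ := h q hq
    have h2 : (((ev A k j c q + g q).toNat : ℕ) : ℝ) = ((ev A k j c q + g q : ℤ) : ℝ) := by
      have : (((ev A k j c q + g q).toNat : ℕ) : ℤ) = ev A k j c q + g q :=
        Int.toNat_of_nonneg h0
      exact_mod_cast congrArg (Int.cast (R := ℝ)) this
    calc (q : ℝ) ^ (ev A k j c q + g q).toNat
        = Real.exp (((ev A k j c q + g q).toNat : ℕ) * Real.log q) := by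
          rw [mul_comm, Real.exp_mul, Real.exp_log hq0, Real.rpow_natCast]
      _ ≤ Real.exp (u q * Real.log q) := by
          rw [Real.exp_le_exp, h2]
          exact mul_le_mul_of_nonneg_right h1 hlog

end Pool.ZD
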