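import Pool.Agent.Helper57.ZD.Defs

/-! Project ZD, piece Poly1: shifts. -/

set_option autoImplicit false

namespace Pool.ZD

open Finset Pool.Agent.Helper90.ZD MvPolynomial

/-- Poly1: restriction of a polynomial to the line through `z` in the direction `e`. -/
private theorem poly1_line {r : ℕ} (i0 : Fin r) (z : Fin r → ℂ) (F : MvPolynomial (Fin r) ℂ) :
    ∃ f : Polynomial ℂ, ∀ t : ℂ, f.eval t = eval (Function.update z i0 (z i0 + t)) F := by
  classical
  refine ⟨eval₂ Polynomial.C
    (fun i => if i = i0 then Polynomial.X + Polynomial.C (z i0) else Polynomial.C (z i)) F,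
    fun t => ?_⟩
  have h1 := MvPolynomial.hom_eval₂ F Polynomial.C (Polynomial.evalRingHom t)
    (fun i => if i = i0 then Polynomial.X + Polynomial.C (z i0) else Polynomial.C (z i))
  rw [Polynomial.coe_evalRingHom] at h1
  rw [h1]
  have h2 : (Polynomial.evalRingHom t).comp Polynomial.C = RingHom.id ℂ := by
    ext x; simp
  rw [h2]
  have h3 : (fun i => Polynomial.eval t
      (if i = i0 then Polynomial.X + Polynomial.C (z i0) else Polynomial.C (z i)))
      = Function.update z i0 (z i0 + t) := by
    funext i
    by_cases hi : i = i0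
    · subst hi; simp [add_comm]
    · simp [hi]
  have h4 : (⇑(Polynomial.evalRingHom t) ∘ fun i =>
      if i = i0 then Polynomial.X + Polynomial.C (z i0) else Polynomial.C (z i))
      = Function.update z i0 (z i0 + t) := by
    rw [← h3]; rfl
  rw [Polynomial.coe_evalRingHom] at h4
  exact congrArg (fun w => eval₂ (RingHom.id ℂ) w F) h3

/-- If `ρ F(z) G(z + m e) = F(z + m e) G(z)` with `F, G ≠ 0`, then `ρ = 1`: restrict to the line
in the direction `e` through a point with `F G ≠ 0` and compare leading coefficients. -/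
theorem shift_one {r : ℕ} (i0 : Fin r) (F G : MvPolynomial (Fin r) ℂ) (hF : F ≠ 0) (hG : G ≠ 0)
    (ρ : ℂ) (m : ℕ) (hm : 1 ≤ m)
    (h : ∀ z : Fin r → ℂ, ρ * eval z F * eval (Function.update z i0 (z i0 + m)) G =
      eval (Function.update z i0 (z i0 + m)) F * eval z G) : ρ = 1 := by
  classical
  have hFG : F * G ≠ 0 := mul_ne_zero hF hG
  obtain ⟨z, hz⟩ : ∃ z : Fin r → ℂ, eval z (F * G) ≠ 0 := by
    by_contra hcon
    push Not at hcon
    exact hFG (MvPolynomial.funext (fun z => by rw [hcon z, map_zero]))
  rw [map_mul] at hz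
  obtain ⟨f, hf⟩ := poly1_line i0 z F
  obtain ⟨g, hg⟩ := poly1_line i0 z G
  have hup : Function.update z i0 (z i0 + 0) = z := by
    rw [add_zero]; exact Function.update_eq_self i0 z
  have hf0 : f ≠ 0 := by
    intro h0
    have h1 := hf 0
    rw [h0, Polynomial.eval_zero, hup] at h1
    exact hz (by rw [← h1, zero_mul])
  have hg0 : g ≠ 0 := by
    intro h0
    have h1 := hg 0
    rw [h0, Polynomial.eval_zero, hup] at h1
    exact hz (by rw [← h1, mul_zero])
  have hid : Polynomial.C ρ * f * g.comp (Polynomial.X + Polynomial.C (m : ℂ))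
      = f.comp (Polynomial.X + Polynomial.C (m : ℂ)) * g := by
    apply Polynomial.funext
    intro t
    have h1 := h (Function.update z i0 (z i0 + t))
    have e1 : Function.update (Function.update z i0 (z i0 + t)) i0
        (Function.update z i0 (z i0 + t) i0 + (m : ℂ))
        = Function.update z i0 (z i0 + (t + m)) := by
      rw [Function.update_idem, Function.update_self, add_assoc]
    rw [e1, ← hf, ← hf, ← hg, ← hg] at h1
    simp only [Polynomial.eval_mul, Polynomial.eval_C, Polynomial.eval_comp, Polynomial.eval_add,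
      Polynomial.eval_X]
    exact h1
  have hnd : (Polynomial.X + Polynomial.C (m : ℂ)).natDegree ≠ 0 := by
    rw [Polynomial.natDegree_X_add_C]; exact one_ne_zero
  have hlead := congrArg Polynomial.leadingCoeff hid
  rw [Polynomial.leadingCoeff_mul, Polynomial.leadingCoeff_mul, Polynomial.leadingCoeff_mul,
    Polynomial.leadingCoeff_C, Polynomial.leadingCoeff_comp hnd, Polynomial.leadingCoeff_comp hnd,
    Polynomial.leadingCoeff_X_add_C, one_pow, one_pow, mul_one, mul_one] at hlead
  have hne : f.leadingCoeff * g.leadingCoeff ≠ 0 :=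
    mul_ne_zero (Polynomial.leadingCoeff_ne_zero.mpr hf0) (Polynomial.leadingCoeff_ne_zero.mpr hg0)
  have h2 : (ρ - 1) * (f.leadingCoeff * g.leadingCoeff) = 0 := by
    linear_combination hlead
  rcases mul_eq_zero.mp h2 with h3 | h3
  · exact sub_eq_zero.mp h3
  · exact absurd h3 hne

/-- The shifted polynomial. -/
theorem shift_poly {r : ℕ} (i0 : Fin r) (F : MvPolynomial (Fin r) ℂ) (m : ℕ) :
    ∃ F' : MvPolynomial (Fin r) ℂ, F'.totalDegree ≤ F.totalDegree ∧
      ∀ z : Fin r → ℂ, eval z F' = eval (Function.update z i0 (z i0 + m)) F := by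
  classical
  set lin : Fin r → MvPolynomial (Fin r) ℂ := fun i => if i = i0 then X i + C (m : ℂ) else X i
    with hlin
  have hdeg : ∀ i, (lin i).totalDegree ≤ 1 := by
    intro i
    by_cases hi : i = i0
    · simp only [hlin, hi, if_true]
      refine (MvPolynomial.totalDegree_add _ _).trans ?_
      rw [MvPolynomial.totalDegree_X, MvPolynomial.totalDegree_C]
      simp
    · simp only [hlin, hi, if_false]
      rw [MvPolynomial.totalDegree_X]
  refine ⟨∑ s ∈ F.support, C (F.coeff s) * ∏ i, lin i ^ s i, ?_, fun z => ?_⟩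
  · refine (MvPolynomial.totalDegree_finsetSum _ _).trans (Finset.sup_le fun s hs => ?_)
    refine (MvPolynomial.totalDegree_mul _ _).trans ?_
    rw [MvPolynomial.totalDegree_C, zero_add]
    refine (MvPolynomial.totalDegree_finsetProd _ _).trans ?_
    calc ∑ i, (lin i ^ s i).totalDegree ≤ ∑ i, s i := by
          refine Finset.sum_le_sum fun i _ => ?_
          refine (MvPolynomial.totalDegree_pow _ _).trans ?_
          calc s i * (lin i).totalDegree ≤ s i * 1 := Nat.mul_le_mul_left _ (hdeg i)
            _ = s i := mul_one _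
      _ = s.sum fun _ e => e := by
          rw [Finsupp.sum_fintype]
          intro i; rfl
      _ ≤ F.totalDegree := MvPolynomial.le_totalDegree hs
  · rw [map_sum, MvPolynomial.eval_eq' (Function.update z i0 (z i0 + m)) F]
    refine Finset.sum_congr rfl fun s _ => ?_
    rw [map_mul, MvPolynomial.eval_C, map_prod]
    congr 1
    refine Finset.prod_congr rfl fun i _ => ?_
    rw [map_pow]
    congr 1
    by_cases hi : i = i0
    · subst hi
      simp [hlin]
    · simp [hlin, hi]

end Pool.ZD
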