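import Pool.Agent.Helper57.ZD.Poly0
import Pool.Agent.Helper57.ZD.Poly1

/-! Project ZD, piece Indep: the columns are independent. -/

set_option autoImplicit false

namespace Pool.ZD

open Finset Pool.Agent.Helper90.ZD MvPolynomial

/-- The shift `c - m e_0 + m e_1`. -/
def shv {r : ℕ} (m : ℕ) (c : Fin (r + 2) → ℕ) : Fin (r + 2) → ℕ :=
  fun i => if i = 0 then c 0 - m else if i = 1 then c 1 + m else c i

private theorem indep_poly {r X : ℕ} (x : (Fin r → ℕ) → ℂ) :
    ∃ F : MvPolynomial (Fin r) ℂ, F.totalDegree ≤ X ∧ ∀ c : Fin (r + 1) → ℕ,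
      eval (fun i => (c i.succ : ℂ)) F = ∑ a ∈ JJ r X, x a * ((bn a c : ℕ) : ℂ) := by
  choose p hp1 hp2 using fun a : Fin r → ℕ => bn_poly a
  refine ⟨∑ a ∈ JJ r X, MvPolynomial.C (x a) * p a, ?_, fun c => ?_⟩
  · refine (totalDegree_finset_sum _ _).trans (Finset.sup_le fun a ha => ?_)
    refine (totalDegree_mul _ _).trans ?_
    rw [totalDegree_C, zero_add]
    exact (hp1 a).trans (mem_JJ.1 ha).le
  · rw [map_sum]
    refine Finset.sum_congr rfl fun a _ => ?_
    rw [map_mul, eval_C, hp2]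

private theorem indep_pv {r : ℕ} (F : MvPolynomial (Fin (r + 1)) ℂ) (c : Fin (r + 2) → ℕ) :
    pv (rename Fin.succ F) c = eval (fun i => (c i.succ : ℂ)) F := by
  unfold pv
  rw [eval_rename]
  rfl

/-- A polynomial in `c 1, …` of small degree which vanishes on `Sig C` is zero. -/
private theorem indep_zero {r C : ℕ} (F : MvPolynomial (Fin (r + 1)) ℂ) (hF : F.totalDegree ≤ C)
    (h : ∀ c ∈ Sig (r + 2) C, pv (rename Fin.succ F) c = 0) : F = 0 := by
  refine simplex_zero F hF fun z hz => ?_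
  have h1 := h (Fin.cons (C - ∑ i, z i) z) (by
    rw [mem_piAntidiag]
    refine ⟨?_, fun i _ => mem_univ i⟩
    rw [Fin.sum_univ_succ, Fin.cons_zero]
    simp only [Fin.cons_succ]
    omega)
  rw [indep_pv] at h1
  simpa only [Fin.cons_succ] using h1

private theorem indep_rows {r : ℕ} (ε : ℝ) (hε : 0 < ε) (C A : ℕ) (hA : 0 < A)
    (j : Fin (r + 2) → ℕ) {c : Fin (r + 2) → ℕ} (hc : c ∈ Sig (r + 2) C)
    (h : Int.fract (∑ i, ((j i : ℝ) / A) * c i - 0) < ε / 2) : c ∈ rows (r + 1) C A j ε := by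
  have hA' : (0 : ℝ) < A := by exact_mod_cast hA
  have h1 : ∑ i, ((j i : ℝ) / A) * c i - 0 = ((dt j c : ℕ) : ℝ) / (A : ℝ) := by
    unfold dt
    rw [sub_zero]
    push_cast
    rw [Finset.sum_div]
    refine Finset.sum_congr rfl fun i _ => ?_
    ring
  rw [h1, Int.fract_div_natCast_eq_div_natCast_mod, div_lt_iff₀ hA'] at h
  unfold rows
  rw [mem_filter]
  refine ⟨hc, ?_⟩
  nlinarith

/-- Independence of the columns `bn a` (`|a| < X`) and `bn b R` (`|b| < T1`) on the rows.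
`hZ` is the zero estimate.  Proof: `F = ∑ x a bn a`, `G = ∑ y b bn b` as polynomials in
`c 1, …`.  On the rows `c` with `{t.c - ε/4} < ε/2`, `m ≤ c 0`:
`ρ F(c) G(shv c) - F(shv c) G(c) = 0`; put `c = c' + m e_0`, `c' ∈ Sig (C - m)` (`F, G` do not
depend on `c 0`), use `hZ` with `C' = C - m`, `simplex_zero`, `shift_one`: so `F = 0` or `G = 0`.
If `G = 0` then `F = 0` on the rows, `hZ` with `C' = C`; if `F = 0` then `G = 0` on the rows. -/
theorem indep {r : ℕ} (ε : ℝ) (hε : 0 < ε) (C X T1 A m : ℕ) (hA : 0 < A) (hm : 1 ≤ m)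
    (hC : X + T1 + m ≤ C) (j : Fin (r + 2) → ℕ)
    (hZ : ∀ C' : ℕ, C' ≤ C → C ≤ C' + m → ∀ (β : ℝ) (p : MvPolynomial (Fin (r + 2)) ℂ),
      p.totalDegree ≤ X + T1 →
      (∀ c ∈ Sig (r + 2) C', Int.fract (∑ i, ((j i : ℝ) / A) * c i - β) < ε / 2 → pv p c = 0) →
      ∀ c ∈ Sig (r + 2) C', pv p c = 0)
    (R : (Fin (r + 2) → ℕ) → ℂ) (hR : ∀ c, R c ≠ 0) (ρ : ℂ) (hρ : ρ ≠ 1)
    (hsh : ∀ c ∈ Sig (r + 2) C, m ≤ c 0 →
      Int.fract (∑ i, ((j i : ℝ) / A) * c i - ε / 4) < ε / 2 →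
      c ∈ rows (r + 1) C A j ε ∧ shv m c ∈ rows (r + 1) C A j ε ∧ R (shv m c) = ρ * R c)
    (x y : (Fin (r + 1) → ℕ) → ℂ)
    (hrel : ∀ c ∈ rows (r + 1) C A j ε,
      ∑ a ∈ JJ (r + 1) X, x a * ((bn a c : ℕ) : ℂ) +
        (∑ b ∈ JJ (r + 1) T1, y b * ((bn b c : ℕ) : ℂ)) * R c = 0) :
    (∀ a ∈ JJ (r + 1) X, x a = 0) ∧ (∀ b ∈ JJ (r + 1) T1, y b = 0) := by
  obtain ⟨F, hF1, hF2⟩ := indep_poly (r := r + 1) (X := X) x
  obtain ⟨G, hG1, hG2⟩ := indep_poly (r := r + 1) (X := T1) y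
  have hrel' : ∀ c ∈ rows (r + 1) C A j ε, eval (fun i => (c i.succ : ℂ)) F +
      eval (fun i => (c i.succ : ℂ)) G * R c = 0 := fun c hc => by
    rw [hF2, hG2]
    exact hrel c hc
  obtain ⟨F', hF'1, hF'2⟩ := shift_poly (0 : Fin (r + 1)) F m
  obtain ⟨G', hG'1, hG'2⟩ := shift_poly (0 : Fin (r + 1)) G m
  -- the shift in coordinates
  have hs0 : ∀ c : Fin (r + 2) → ℕ, (fun i : Fin (r + 1) => ((shv m c i.succ : ℕ) : ℂ)) =
      Function.update (fun i : Fin (r + 1) => (c i.succ : ℂ)) 0 ((c (Fin.succ 0) : ℂ) + m) := by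
    intro c
    funext i
    unfold shv
    rw [if_neg (Fin.succ_ne_zero i)]
    by_cases hi : i = 0
    · subst hi
      rw [Function.update_self, if_pos (by rfl)]
      push_cast
      rfl
    · have h1 : (i.succ : Fin (r + 2)) ≠ 1 := fun h2 => hi (Fin.succ_injective _ h2)
      rw [Function.update_of_ne hi, if_neg h1]
  have hFs : ∀ c : Fin (r + 2) → ℕ, eval (fun i => (c i.succ : ℂ)) F' =
      eval (fun i => ((shv m c i.succ : ℕ) : ℂ)) F := fun c => by
    rw [hF'2, hs0]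
  have hGs : ∀ c : Fin (r + 2) → ℕ, eval (fun i => (c i.succ : ℂ)) G' =
      eval (fun i => ((shv m c i.succ : ℕ) : ℂ)) G := fun c => by
    rw [hG'2, hs0]
  -- the polynomial
  have hdeg : (MvPolynomial.C ρ * F * G' - F' * G).totalDegree ≤ X + T1 := by
    refine (totalDegree_sub _ _).trans (max_le ?_ ?_)
    · refine (totalDegree_mul _ _).trans (add_le_add ?_ (hG'1.trans hG1))
      refine (totalDegree_mul _ _).trans ?_
      rw [totalDegree_C, zero_add]
      exact hF1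
    · exact (totalDegree_mul _ _).trans (add_le_add (hF'1.trans hF1) hG1)
  have hz : MvPolynomial.C ρ * F * G' - F' * G = 0 := by
    refine indep_zero (C := C - m) _ (hdeg.trans (by omega)) ?_
    refine hZ (C - m) (Nat.sub_le _ _) (by omega) (ε / 4 - ((j 0 : ℝ) / A) * m) _
      ((totalDegree_rename_le _ _).trans hdeg) fun c' hc' hfr => ?_
    rw [mem_piAntidiag] at hc'
    obtain ⟨c, hc⟩ : ∃ c : Fin (r + 2) → ℕ, c = Fin.cons (c' 0 + m) fun i => c' i.succ := ⟨_, rfl⟩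
    have hc0 : c 0 = c' 0 + m := by rw [hc, Fin.cons_zero]
    have hcs : ∀ i : Fin (r + 1), c i.succ = c' i.succ := fun i => by rw [hc, Fin.cons_succ]
    have hmem : c ∈ Sig (r + 2) C := by
      rw [mem_piAntidiag]
      refine ⟨?_, fun i _ => mem_univ i⟩
      have h1 := hc'.1
      rw [Fin.sum_univ_succ] at h1 ⊢
      rw [hc0, Finset.sum_congr rfl fun i _ => hcs i]
      omega
    have hfr' : Int.fract (∑ i, ((j i : ℝ) / A) * c i - ε / 4) < ε / 2 := by
      have h1 : ∑ i, ((j i : ℝ) / A) * c i - ε / 4 =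
          ∑ i, ((j i : ℝ) / A) * c' i - (ε / 4 - ((j 0 : ℝ) / A) * m) := by
        rw [Fin.sum_univ_succ, Fin.sum_univ_succ (f := fun i => ((j i : ℝ) / A) * (c' i : ℝ)), hc0]
        rw [Finset.sum_congr rfl fun i _ => by rw [hcs i]]
        push_cast
        ring
      rw [h1]
      exact hfr
    obtain ⟨hr1, hr2, hr3⟩ := hsh c hmem (by omega) hfr'
    have e1 := hrel' c hr1
    have e2 := hrel' (shv m c) hr2
    rw [hr3] at e2
    rw [indep_pv]
    have hcc : (fun i : Fin (r + 1) => (c' i.succ : ℂ)) = fun i => (c i.succ : ℂ) := by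
      funext i
      rw [hcs]
    rw [hcc, map_sub, map_mul, map_mul, map_mul, eval_C, hFs, hGs]
    linear_combination (ρ * eval (fun i => ((shv m c i.succ : ℕ) : ℂ)) G) * e1 -
      eval (fun i => (c i.succ : ℂ)) G * e2
  -- one of the two is zero
  have hor : F = 0 ∨ G = 0 := by
    by_contra hcon
    rw [not_or] at hcon
    refine hρ (shift_one (0 : Fin (r + 1)) F G hcon.1 hcon.2 ρ m hm fun z => ?_)
    have h1 := congrArg (eval z) hz
    rw [map_sub, map_mul, map_mul, map_mul, eval_C, map_zero, hF'2, hG'2, sub_eq_zero] at h1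
    exact h1
  have hmain : ∀ P : MvPolynomial (Fin (r + 1)) ℂ, P.totalDegree ≤ X + T1 →
      (∀ c ∈ rows (r + 1) C A j ε, eval (fun i => (c i.succ : ℂ)) P = 0) → P = 0 := by
    intro P hP hv
    refine indep_zero (C := C) P (hP.trans (by omega)) ?_
    refine hZ C le_rfl (by omega) 0 _ ((totalDegree_rename_le _ _).trans hP) fun c hc hfr => ?_
    rw [indep_pv]
    exact hv c (indep_rows ε hε C A hA j hc hfr)
  have hFG : F = 0 ∧ G = 0 := by
    rcases hor with h0 | h0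
    · refine ⟨h0, hmain G (hG1.trans (by omega)) fun c hc => ?_⟩
      have h1 := hrel' c hc
      rw [h0, map_zero, zero_add] at h1
      exact (mul_eq_zero.1 h1).resolve_right (hR c)
    · refine ⟨hmain F (hF1.trans (by omega)) fun c hc => ?_, h0⟩
      have h1 := hrel' c hc
      rw [h0, map_zero, zero_mul, add_zero] at h1
      exact h1
  refine ⟨bn_indep x fun c => ?_, bn_indep y fun c => ?_⟩
  · rw [← hF2, hFG.1, map_zero]
  · rw [← hG2, hFG.2, map_zero]

end Pool.ZD
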