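import Pool.Agent.Helper57.ZD.Indep

/-! Project ZD, piece Rho: the shift. -/

set_option autoImplicit false

namespace Pool.ZD

open Finset Pool.Agent.Helper90.ZD

/-- The part `[ε / 4, 3 ε / 4)` of the arc and a translation by `m + θ`. -/
private theorem rho_fract {y ε θ : ℝ} {m : ℤ} (hε1 : ε ≤ 1) (hθ : |θ| ≤ ε / 4)
    (h : Int.fract (y - ε / 4) < ε / 2) :
    Int.fract y < ε ∧ Int.fract (y + (m + θ)) < ε ∧ ⌊y + (m + θ)⌋ = ⌊y⌋ + m := by
  set k := ⌊y - ε / 4⌋ with hk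
  have h1 : y - ε / 4 = k + Int.fract (y - ε / 4) := (Int.floor_add_fract _).symm
  have h0 := Int.fract_nonneg (y - ε / 4)
  have h2 := abs_le.1 hθ
  have h5 : ⌊y⌋ = k := by
    rw [Int.floor_eq_iff]
    constructor <;> linarith
  have h6 : ⌊y + (m + θ)⌋ = k + m := by
    rw [Int.floor_eq_iff]
    push_cast
    constructor <;> linarith
  have h3 : Int.fract y = Int.fract (y - ε / 4) + ε / 4 := by
    have := Int.floor_add_fract y
    rw [h5] at this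
    linarith
  have h4 : Int.fract (y + (m + θ)) = Int.fract (y - ε / 4) + ε / 4 + θ := by
    have := Int.floor_add_fract (y + (m + θ))
    rw [h6] at this
    push_cast at this
    linarith
  exact ⟨by linarith, by linarith, by rw [h5, h6]⟩

private theorem rho_ne {r : ℕ} : (1 : Fin (r + 2)) ≠ 0 := by
  intro h
  have := congrArg Fin.val h
  simp at this

/-- Linear functions of the shifted row. -/
private theorem rho_sum {r : ℕ} {K : Type} [CommRing K] (c : Fin (r + 2) → ℕ) {m : ℕ} (hm : m ≤ c 0)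
    (f : Fin (r + 2) → K) :
    ∑ i, ((shv m c i : ℕ) : K) * f i = ∑ i, ((c i : ℕ) : K) * f i + m * (f 1 - f 0) := by
  have h1 : ∀ i, ((shv m c i : ℕ) : K) * f i = ((c i : ℕ) : K) * f i +
      ((if i = 1 then (m : K) * f i else 0) - if i = 0 then (m : K) * f i else 0) := by
    intro i
    unfold shv
    by_cases h0 : i = 0
    · subst h0
      rw [if_pos rfl, if_neg rho_ne.symm, if_pos rfl, Nat.cast_sub hm]
      ring
    · rw [if_neg h0, if_neg h0]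
      by_cases h2 : i = 1
      · subst h2
        rw [if_pos rfl, if_pos rfl]
        push_cast
        ring
      · rw [if_neg h2, if_neg h2]
        ring
  rw [sum_congr rfl fun i _ => h1 i, sum_add_distrib, sum_sub_distrib, sum_ite_eq' univ, sum_ite_eq' univ]
  simp only [mem_univ, if_true]
  ring

/-- Products for the shifted row. -/
private theorem rho_prod {r : ℕ} (c : Fin (r + 2) → ℕ) {m : ℕ} (hm : m ≤ c 0) (s : Fin (r + 2) → ℚ)
    (hs : s 0 ≠ 0) : ∏ i, s i ^ shv m c i = (∏ i, s i ^ c i) * (s 1 / s 0) ^ m := by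
  have h1 : ∀ i, s i ^ shv m c i = s i ^ c i *
      ((if i = 1 then s i ^ m else 1) * if i = 0 then (s i ^ m)⁻¹ else 1) := by
    intro i
    unfold shv
    by_cases h0 : i = 0
    · subst h0
      rw [if_pos rfl, if_neg rho_ne.symm, if_pos rfl, pow_sub₀ _ hs hm, one_mul]
    · rw [if_neg h0, if_neg h0]
      by_cases h2 : i = 1
      · subst h2
        rw [if_pos rfl, if_pos rfl, pow_add, mul_one]
      · rw [if_neg h2, if_neg h2, mul_one, mul_one]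
  rw [prod_congr rfl fun i _ => h1 i, prod_mul_distrib, prod_mul_distrib, prod_ite_eq' univ, prod_ite_eq' univ]
  simp only [mem_univ, if_true]
  rw [div_pow, div_eq_mul_inv]

/-- The fractional part of `t.c`. -/
private theorem rho_rows {r : ℕ} {C A : ℕ} (hA : 0 < A) {j : Fin (r + 2) → ℕ} {ε : ℝ}
    {c : Fin (r + 2) → ℕ} (hc : c ∈ Sig (r + 2) C) (h : Int.fract (((dt j c : ℕ) : ℝ) / (A : ℝ)) < ε) :
    c ∈ rows (r + 1) C A j ε := by
  have hA' : (0 : ℝ) < A := by exact_mod_cast hA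
  rw [Int.fract_div_natCast_eq_div_natCast_mod, div_lt_iff₀ hA'] at h
  unfold rows
  rw [mem_filter]
  exact ⟨hc, h⟩

private theorem rho_dt {r : ℕ} {A : ℕ} (j c : Fin (r + 2) → ℕ) :
    ∑ i, ((j i : ℝ) / A) * c i = ((dt j c : ℕ) : ℝ) / (A : ℝ) := by
  unfold dt
  push_cast
  rw [Finset.sum_div]
  refine Finset.sum_congr rfl fun i _ => ?_
  ring

private theorem rho_sig {r C m : ℕ} {c : Fin (r + 2) → ℕ} (hc : c ∈ Sig (r + 2) C) (hm : m ≤ c 0) :
    shv m c ∈ Sig (r + 2) C := by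
  rw [mem_piAntidiag] at hc ⊢
  refine ⟨?_, fun i _ => mem_univ i⟩
  have h1 := rho_sum (K := ℤ) c hm (fun _ => 1)
  simp only [mul_one, sub_self, mul_zero, add_zero] at h1
  rw [← hc.1]
  exact_mod_cast h1

/-- The exponent `E q0` is not zero. -/
private theorem rho_E {A K J : ℕ} (hA : A.Prime) (hJA : J < A) {k : ℤ} (hk0 : (J : ℝ) * A < K * |(k : ℝ)|)
    {j0 j1 m : ℕ} (hj0 : j0 < A) (hj1 : j1 < A) (hj : j1 ≠ j0) (hm1 : 1 ≤ m) (hmJ : m ≤ J) (μ : ℤ)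
    (hpat : (K : ℤ) * ((j1 : ℤ) * k % (A : ℤ)) / (A : ℤ) = (K : ℤ) * ((j0 : ℤ) * k % (A : ℤ)) / (A : ℤ)) :
    (m : ℤ) * ((j1 : ℤ) * k / (A : ℤ) - (j0 : ℤ) * k / (A : ℤ)) - μ * k ≠ 0 := by
  intro h0
  have hA0 : (0 : ℤ) < A := by exact_mod_cast hA.pos
  set x1 := (j1 : ℤ) * k / (A : ℤ) with hx1
  set x0 := (j0 : ℤ) * k / (A : ℤ) with hx0
  set F1 := (j1 : ℤ) * k % (A : ℤ) with hF1
  set F0 := (j0 : ℤ) * k % (A : ℤ) with hF0
  have e1 : (A : ℤ) * x1 + F1 = j1 * k := Int.mul_ediv_add_emod _ _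
  have e0 : (A : ℤ) * x0 + F0 = j0 * k := Int.mul_ediv_add_emod _ _
  -- the coefficient
  have hco : (m : ℤ) * ((j1 : ℤ) - j0) - μ * A ≠ 0 := by
    intro h1
    have h2 : (A : ℤ) ∣ (m : ℤ) * ((j1 : ℤ) - j0) := ⟨μ, by linarith⟩
    have hAp : Prime (A : ℤ) := Nat.prime_iff_prime_int.1 hA
    rcases hAp.dvd_or_dvd h2 with h3 | h3
    · have h4 : A ∣ m := by exact_mod_cast h3
      have := Nat.le_of_dvd hm1 h4
      omega
    · have h4 : (j1 : ℤ) - j0 ≠ 0 := by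
        intro h5
        apply hj
        omega
      have h5 := Int.le_of_dvd (abs_pos.2 h4) ((dvd_abs _ _).2 h3)
      have h6 : |(j1 : ℤ) - j0| < A := by
        rw [abs_lt]
        constructor <;> omega
      omega
  have key : ((m : ℤ) * ((j1 : ℤ) - j0) - μ * A) * k = m * (F1 - F0) := by
    have h1 : (A : ℤ) * ((m : ℤ) * (x1 - x0) - μ * k) = 0 := by rw [h0, mul_zero]
    have h2 : (m : ℤ) * ((A : ℤ) * x1 - A * x0) - μ * A * k = 0 := by linarith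
    have h3 : (A : ℤ) * x1 = j1 * k - F1 := by linarith
    have h4 : (A : ℤ) * x0 = j0 * k - F0 := by linarith
    rw [h3, h4] at h2
    linarith
  -- the pattern
  have hF : |(K : ℤ) * F1 - K * F0| < A := by
    have h1 := Int.mul_ediv_add_emod ((K : ℤ) * F1) A
    have h2 := Int.mul_ediv_add_emod ((K : ℤ) * F0) A
    rw [hpat] at h1
    have h3 := Int.emod_nonneg ((K : ℤ) * F1) hA0.ne'
    have h4 := Int.emod_nonneg ((K : ℤ) * F0) hA0.ne'
    have h5 := Int.emod_lt_of_pos ((K : ℤ) * F1) hA0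
    have h6 := Int.emod_lt_of_pos ((K : ℤ) * F0) hA0
    rw [abs_lt]
    constructor <;> linarith
  have hk1 : |k| ≤ m * |F1 - F0| := by
    have h1 := congrArg abs key
    rw [abs_mul, abs_mul] at h1
    have h2 : (1 : ℤ) ≤ |(m : ℤ) * ((j1 : ℤ) - j0) - μ * A| := Int.one_le_abs hco
    have h3 : |(m : ℤ)| = m := abs_of_nonneg (by positivity)
    rw [h3] at h1
    nlinarith [abs_nonneg k]
  have hk2 : (K : ℤ) * |k| ≤ J * |(K : ℤ) * F1 - K * F0| := by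
    have h1 : |(K : ℤ) * F1 - K * F0| = K * |F1 - F0| := by
      rw [← mul_sub, abs_mul, abs_of_nonneg (by positivity : (0 : ℤ) ≤ K)]
    rw [h1]
    have h2 : (m : ℤ) * |F1 - F0| ≤ J * |F1 - F0| :=
      mul_le_mul_of_nonneg_right (by exact_mod_cast hmJ) (abs_nonneg _)
    calc (K : ℤ) * |k| ≤ K * (J * |F1 - F0|) :=
          mul_le_mul_of_nonneg_left (hk1.trans h2) (by positivity)
      _ = J * (K * |F1 - F0|) := by ring
  have hk3 : (K : ℤ) * |k| ≤ J * A := by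
    refine hk2.trans (mul_le_mul_of_nonneg_left hF.le (by positivity))
  have hk4 : (K : ℝ) * |(k : ℝ)| ≤ J * A := by exact_mod_cast hk3
  linarith

/-- The valuation at `q0`. -/
private theorem rho_val {Q : Finset ℕ} (hQ : ∀ q ∈ Q, q.Prime) {q0 : ℕ} (hq0 : q0 ∈ Q) (E : ℕ → ℤ)
    {s0 s1 : ℕ} (h0 : s0.Coprime q0) (h1 : s1.Coprime q0) (m : ℕ)
    (h : ((s1 : ℚ) / s0) ^ m * ∏ q ∈ Q, (q : ℚ) ^ E q = 1) (hs0 : s0 ≠ 0) (hs1 : s1 ≠ 0) : E q0 = 0 := by
  have hp : Fact q0.Prime := ⟨hQ q0 hq0⟩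
  have hs0' : (s0 : ℚ) ≠ 0 := by exact_mod_cast hs0
  have hs1' : (s1 : ℚ) ≠ 0 := by exact_mod_cast hs1
  have hq' : ∀ q ∈ Q, (q : ℚ) ≠ 0 := fun q hq => by exact_mod_cast (hQ q hq).ne_zero
  have hv : ∀ n : ℕ, n.Coprime q0 → padicValRat q0 (n : ℚ) = 0 := by
    intro n hn
    rw [padicValRat.of_nat, padicValNat.eq_zero_of_not_dvd]
    · rfl
    · intro hd
      exact (hQ q0 hq0).one_lt.ne' (Nat.Coprime.eq_one_of_dvd hn.symm hd)
  have hprod : ∀ T : Finset ℕ, T ⊆ Q → padicValRat q0 (∏ q ∈ T, (q : ℚ) ^ E q) = ∑ q ∈ T, if q = q0 then E q else 0 := by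
    intro T
    induction T using Finset.induction_on with
    | empty => intro _; simp
    | insert q T hqT ih =>
      intro hsub
      have hqQ : q ∈ Q := hsub (mem_insert_self q T)
      have hTQ : T ⊆ Q := (subset_insert q T).trans hsub
      have n1 : (q : ℚ) ^ E q ≠ 0 := zpow_ne_zero _ (hq' q hqQ)
      have n2 : ∏ q ∈ T, (q : ℚ) ^ E q ≠ 0 := prod_ne_zero_iff.2 fun q hq => zpow_ne_zero _ (hq' q (hTQ hq))
      rw [prod_insert hqT, sum_insert hqT, padicValRat.mul n1 n2, ih hTQ, padicValRat.zpow]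
      congr 1
      by_cases hqq : q = q0
      · subst hqq
        rw [if_pos rfl, padicValRat.self hp.out.one_lt, mul_one]
      · rw [if_neg hqq, hv q ((Nat.coprime_primes (hQ q hqQ) hp.out).2 hqq), mul_zero]
  have n1 : ((s1 : ℚ) / s0) ^ m ≠ 0 := pow_ne_zero _ (div_ne_zero hs1' hs0')
  have n2 : ∏ q ∈ Q, (q : ℚ) ^ E q ≠ 0 := prod_ne_zero_iff.2 fun q hq => zpow_ne_zero _ (hq' q hq)
  have h2 := congrArg (padicValRat q0) h
  rw [padicValRat.mul n1 n2, padicValRat.pow, padicValRat.div hs1' hs0', hv s1 h1, hv s0 h0, hprod Q subset_rfl,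
    sum_ite_eq' Q q0, if_pos hq0, padicValRat.one] at h2
  simpa using h2

/-- The shift of the rows.  `Real.exists_int_int_abs_mul_sub_le` for `ξ = (j 1 - j 0) / A` gives
`1 ≤ m ≤ J` and `μ` with `|m ξ - μ| ≤ 1 / (J + 1) ≤ ε / 4`.  If
`∑ t i c i = n + f`, `ε/4 ≤ f < 3 ε/4`, then `t . shv m c = n + μ + f'`, `0 ≤ f' < ε`; so
`ev (shv m c) q = ev c q + E q` with `E q = m (x 1 q - x 0 q) - μ k q`, `ρ = (s 1 / s 0) ^ m
∏ q ^ E q`.  `E q0 ≠ 0`: `A E q = (m (j 1 - j 0) - μ A) k q - m (F 1 - F 0)` where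
`m (j 1 - j 0) - μ A ≠ 0` (`A` prime, `m < A`) and `K |F 1 - F 0| < A`; the
`q0`-adic valuation of `ρ` is `E q0`, so `ρ ≠ 1`. -/
theorem shift_rho {r : ℕ} (Q : Finset ℕ) (k g : ℕ → ℤ) (P A K C J : ℕ)
    (j s : Fin (r + 2) → ℕ) (H : Cls (r + 1) Q k P A K j s) (ε : ℝ) (hε : 0 < ε)
    (hε1 : ε ≤ 1 / 2) (hJ : 4 ≤ ε * (J + 1)) (hJA : J < A) (q0 : ℕ) (hq0 : q0 ∈ Q)
    (hk0 : (J : ℝ) * A < K * |(k q0 : ℝ)|)
    (hg : ∀ c ∈ rows (r + 1) C A j ε, ∀ q ∈ Q, 0 ≤ ev A k j c q + g q) :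
    ∃ m : ℕ, 1 ≤ m ∧ m ≤ J ∧ ∃ ρ : ℂ, ρ ≠ 1 ∧ ∀ c ∈ Sig (r + 2) C, m ≤ c 0 →
      Int.fract (∑ i, ((j i : ℝ) / A) * c i - ε / 4) < ε / 2 →
      c ∈ rows (r + 1) C A j ε ∧ shv m c ∈ rows (r + 1) C A j ε ∧
        ((RR Q A k g j s (shv m c) : ℕ) : ℂ) = ρ * ((RR Q A k g j s c : ℕ) : ℂ) := by
  have hA0 : 0 < A := H.hA.pos
  have hA' : (0 : ℝ) < A := by exact_mod_cast hA0
  have hJ0 : 0 < J := by
    rcases Nat.eq_zero_or_pos J with h | h
    · exfalso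
      subst h
      push_cast at hJ
      linarith
    · exact h
  obtain ⟨μ, m', hm'0, hm'J, hμ⟩ := Real.exists_int_int_abs_mul_sub_le (((j 1 : ℝ) - j 0) / A) hJ0
  obtain ⟨m, rfl⟩ : ∃ m : ℕ, m' = m := ⟨m'.toNat, (Int.toNat_of_nonneg hm'0.le).symm⟩
  have hm1 : 1 ≤ m := by exact_mod_cast hm'0
  have hmJ : m ≤ J := by exact_mod_cast hm'J
  rw [Int.cast_natCast] at hμ
  set θ : ℝ := (m : ℝ) * (((j 1 : ℝ) - j 0) / A) - μ with hθ
  have hθ4 : |θ| ≤ ε / 4 := by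
    refine hμ.trans ?_
    have h1 : (0 : ℝ) < (J : ℝ) + 1 := by positivity
    rw [div_le_iff₀ h1]
    linarith
  set E : ℕ → ℤ := fun q => (m : ℤ) * (xx A k (j 1) q - xx A k (j 0) q) - μ * k q with hE
  have hs : ∀ i, (s i : ℚ) ≠ 0 := fun i => by
    have := H.spos i
    exact_mod_cast (by omega : s i ≠ 0)
  refine ⟨m, hm1, hmJ, (((((s 1 : ℚ) / s 0) ^ m * ∏ q ∈ Q, (q : ℚ) ^ E q : ℚ)) : ℂ), ?_, ?_⟩
  · intro h1
    have h2 : (((s 1 : ℚ) / s 0) ^ m * ∏ q ∈ Q, (q : ℚ) ^ E q : ℚ) = 1 := by exact_mod_cast h1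
    have h3 := rho_val H.hQ hq0 E (H.sQ 0 q0 hq0) (H.sQ 1 q0 hq0) m h2 (by have := H.spos 0; omega)
      (by have := H.spos 1; omega)
    refine rho_E H.hA hJA hk0 (H.jlt 0) (H.jlt 1) (fun h4 => rho_ne (H.jinj h4)) hm1 hmJ μ ?_ h3
    exact H.pa 1 q0 hq0
  · intro c hc hmc hfr
    rw [rho_dt] at hfr
    obtain ⟨f1, f2, f3⟩ := rho_fract (m := μ) (by linarith) hθ4 hfr
    have hd : ((dt j (shv m c) : ℕ) : ℝ) / A = ((dt j c : ℕ) : ℝ) / A + (μ + θ) := by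
      have h1 := rho_sum (K := ℝ) c hmc (fun i => (j i : ℝ))
      unfold dt
      push_cast
      rw [h1, hθ]
      field_simp
      ring
    rw [← hd] at f2 f3
    have hr1 := rho_rows hA0 hc f1
    have hr2 := rho_rows hA0 (rho_sig hc hmc) f2
    refine ⟨hr1, hr2, ?_⟩
    have hfl : ((dt j (shv m c) / A : ℕ) : ℤ) = ((dt j c / A : ℕ) : ℤ) + μ := by
      rw [Int.floor_div_natCast, Int.floor_natCast, Int.floor_div_natCast, Int.floor_natCast] at f3
      push_cast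
      exact f3
    have hev : ∀ q, ev A k j (shv m c) q = ev A k j c q + E q := by
      intro q
      unfold ev
      rw [hfl, rho_sum (K := ℤ) c hmc (fun i => xx A k (j i) q), hE]
      ring
    have hRR : ∀ c ∈ rows (r + 1) C A j ε, ((RR Q A k g j s c : ℕ) : ℚ) =
        (∏ i, (s i : ℚ) ^ c i) * ∏ q ∈ Q, (q : ℚ) ^ (ev A k j c q + g q) := by
      intro c hc
      unfold RR
      push_cast
      congr 1
      refine prod_congr rfl fun q hq => ?_
      rw [← zpow_natCast, Int.toNat_of_nonneg (hg c hc q hq)]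
    have hfin : ((RR Q A k g j s (shv m c) : ℕ) : ℚ) =
        (((s 1 : ℚ) / s 0) ^ m * ∏ q ∈ Q, (q : ℚ) ^ E q) * ((RR Q A k g j s c : ℕ) : ℚ) := by
      rw [hRR _ hr1, hRR _ hr2, rho_prod c hmc (fun i => (s i : ℚ)) (hs 0)]
      have h1 : ∏ q ∈ Q, (q : ℚ) ^ (ev A k j (shv m c) q + g q) =
          (∏ q ∈ Q, (q : ℚ) ^ E q) * ∏ q ∈ Q, (q : ℚ) ^ (ev A k j c q + g q) := by
        rw [← prod_mul_distrib]
        refine prod_congr rfl fun q hq => ?_
        have hq0' : (q : ℚ) ≠ 0 := by exact_mod_cast (H.hQ q hq).ne_zero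
        rw [hev, ← zpow_add₀ hq0']
        congr 1
        ring
      rw [h1]
      ring
    have h4 := congrArg (fun x : ℚ => (x : ℂ)) hfin
    simp only [Rat.cast_mul, Rat.cast_natCast] at h4
    rw [h4]
    push_cast
    ring

end Pool.ZD
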