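import Pool.Agent.Helper57.ZD.Expo
import Pool.Agent.Helper57.ZD.Exp
import Pool.Agent.Helper57.ZD.Det
import Pool.Agent.Helper57.ZD.Dim
import Pool.Agent.Helper57.ZD.Rho

/-! Project ZD, piece Ineq: the inequality. -/

set_option autoImplicit false

namespace Pool.ZD

open Finset Pool.Agent.Helper90.ZD

/-- The inequality: `expo`, `expand`, `indep`, `shift_rho`, `det_bound` with `M = P ^ (X - T1)`,
`J1 = JJ X`, `J2 = JJ T1`, `I = rows`. -/
theorem ineq {r : ℕ} (Q : Finset ℕ) (k : ℕ → ℤ) (P A K C X T1 J Y : ℕ)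
    (j s : Fin (r + 2) → ℕ) (H : Cls (r + 1) Q k P A K j s) (hs : ∀ i, s i ≤ Y) (ε : ℝ)
    (hε : 0 < ε) (hε1 : ε ≤ 1 / 2) (hJ : 4 ≤ ε * (J + 1)) (hJA : J < A) (q0 : ℕ) (hq0 : q0 ∈ Q)
    (hk0 : (J : ℝ) * A < K * |(k q0 : ℝ)|) (hX : 1 ≤ X) (hT : T1 ≤ X)
    (hk : ∏ q ∈ Q, un (P ^ X) q ^ k q = 1) (hC : X + T1 + J ≤ C)
    (hZ : ∀ C' : ℕ, C' ≤ C → C ≤ C' + J → ∀ (β : ℝ) (p : MvPolynomial (Fin (r + 2)) ℂ),
      p.totalDegree ≤ X + T1 →
      (∀ c ∈ Sig (r + 2) C', Int.fract (∑ i, ((j i : ℝ) / A) * c i - β) < ε / 2 → pv p c = 0) →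
      ∀ c ∈ Sig (r + 2) C', pv p c = 0) :
    ((P : ℝ) ^ (X - T1)) ^ #(JJ (r + 1) T1) ≤
      ((#(JJ (r + 1) X) + #(JJ (r + 1) T1)).factorial : ℝ) * ((2 : ℝ) ^ C) ^ #(JJ (r + 1) X) *
        ((2 : ℝ) ^ C * ((Y : ℝ) ^ C * Real.exp (∑ q ∈ Q,
          ((C : ℝ) / K + 2 * ε * |(k q : ℝ)| + 1) * Real.log q))) ^ #(JJ (r + 1) T1) := by
  classical
  have hApos : 0 < A := H.hA.pos
  -- the exponents
  obtain ⟨g, hg⟩ := expo Q k A K C j ε hε hApos H.hK H.pa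
  obtain ⟨m, hm1, hmJ, ρ, hρ, hsh⟩ := shift_rho Q k g P A K C J j s H ε hε hε1 hJ hJA q0 hq0 hk0
    fun c hc q hq => (hg c hc q hq).1
  have hrr : ∀ c, 0 < RR Q A k g j s c := by
    intro c
    unfold RR
    refine Nat.mul_pos (Finset.prod_pos fun i _ => pow_pos (H.spos i) _)
      (Finset.prod_pos fun q hq => pow_pos (H.hQ q hq).pos _)
  have hind0 := fun x y => indep (r := r) ε hε C X T1 A m hApos hm1 (by omega) j
    (fun C' h1 h2 β p hp hv => hZ C' h1 (by omega) β p hp hv)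
    (fun c => ((RR Q A k g j s c : ℕ) : ℂ)) (fun c => by exact_mod_cast (hrr c).ne') ρ hρ hsh x y
  have hsub : ∀ (D : ℕ) (φ : JJ (r + 1) D → ℂ) (ψ : (Fin (r + 1) → ℕ) → ℂ),
      ∑ a : JJ (r + 1) D, φ a * ψ a =
        ∑ a ∈ JJ (r + 1) D, (if h : a ∈ JJ (r + 1) D then φ ⟨a, h⟩ else 0) * ψ a := by
    intro D φ ψ
    rw [← Finset.sum_coe_sort (JJ (r + 1) D)]
    refine Finset.sum_congr rfl fun a _ => ?_
    rw [dif_pos a.2]
  have hdet := det_bound (I := rows (r + 1) C A j ε) (J1 := JJ (r + 1) X) (J2 := JJ (r + 1) T1)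
    (fun a c => (bn (a : Fin (r + 1) → ℕ) (c : Fin (r + 2) → ℕ) : ℤ))
    (fun b c => (bn (b : Fin (r + 1) → ℕ) (c : Fin (r + 2) → ℕ) : ℤ) *
      (RR Q A k g j s (c : Fin (r + 2) → ℕ) : ℤ)) (P ^ (X - T1))
    (fun b => by
      obtain ⟨lam, hlam⟩ := expand Q k g P A K X T1 C j s H hX hT hk b b.2
      refine ⟨fun a => lam a, fun c => ?_⟩
      have hc := c.2
      have h1 := hlam c (Finset.mem_filter.1 hc).1 fun q hq => (hg c hc q hq).1
      rw [Finset.sum_coe_sort (JJ (r + 1) X) fun a => lam a * (bn a (c : Fin (r + 2) → ℕ) : ℤ)]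
      push_cast
      exact h1)
    (fun x y hxy => by
      have h1 := hind0
        (fun a => if h : a ∈ JJ (r + 1) X then ((x ⟨a, h⟩ : ℚ) : ℂ) else 0)
        (fun b => if h : b ∈ JJ (r + 1) T1 then ((y ⟨b, h⟩ : ℚ) : ℂ) else 0)
        (fun c hc => by
          have h2 := hxy ⟨c, hc⟩
          have h3 := congrArg (fun z : ℚ => (z : ℂ)) h2
          push_cast at h3
          rw [← hsub X (fun a => ((x a : ℚ) : ℂ)) (fun a => ((bn a c : ℕ) : ℂ)),
            ← hsub T1 (fun b => ((y b : ℚ) : ℂ)) (fun b => ((bn b c : ℕ) : ℂ)), ← h3,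
            Finset.sum_mul]
          congr 1
          refine Finset.sum_congr rfl fun b _ => ?_
          ring)
      constructor
      · funext a
        have h4 := h1.1 a a.2
        rw [dif_pos a.2] at h4
        exact_mod_cast h4
      · funext b
        have h4 := h1.2 b b.2
        rw [dif_pos b.2] at h4
        exact_mod_cast h4)
    ((2 : ℝ) ^ C) ((2 : ℝ) ^ C * ((Y : ℝ) ^ C * Real.exp (∑ q ∈ Q,
          ((C : ℝ) / K + 2 * ε * |(k q : ℝ)| + 1) * Real.log q)))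
    (fun a c => by
      have h1 := bn_le (a : Fin (r + 1) → ℕ) (c : Fin (r + 2) → ℕ) (Finset.mem_filter.1 c.2).1
      rw [Int.cast_natCast, abs_of_nonneg (Nat.cast_nonneg _)]
      exact_mod_cast h1)
    (fun b c => by
      have h1 := bn_le (b : Fin (r + 1) → ℕ) (c : Fin (r + 2) → ℕ) (Finset.mem_filter.1 c.2).1
      have h2 := rr_le Q H.hQ k g A C Y j s c (Finset.mem_filter.1 c.2).1 hs
        (fun q => (C : ℝ) / K + 2 * ε * |(k q : ℝ)| + 1) fun q hq => hg c c.2 q hq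
      rw [Int.cast_mul, Int.cast_natCast, Int.cast_natCast,
        abs_of_nonneg (mul_nonneg (Nat.cast_nonneg _) (Nat.cast_nonneg _))]
      have h3 : ((bn (b : Fin (r + 1) → ℕ) (c : Fin (r + 2) → ℕ) : ℕ) : ℝ) ≤ (2 : ℝ) ^ C := by
        exact_mod_cast h1
      exact mul_le_mul h3 h2 (Nat.cast_nonneg _) (by positivity))
  rw [Fintype.card_coe, Fintype.card_coe] at hdet
  push_cast at hdet
  exact hdet

end Pool.ZD
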