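import Pool.Agent.Helper98.ZD.MainT

/-! Project ZD, piece Main (proof in `Pool/Agent/Helper98/ZD/MainT.lean`). -/

set_option autoImplicit false

namespace Pool.ZD

open Finset Pool.Agent.Helper90.ZD

/-- `δ = ε / 20`; `L = log c`, `N = rad (a b c)`, `l = log N + l0`, `X = ⌊L / (4 l)⌋`,
`P = PP c X`, `A` a prime in `(X / (2 W + 2), X / W]` (Bertrand), `Y = N y`,
`y = ⌊exp ((1 - δ) log P) / N⌋`, `ZZ = {s ≤ Y prime to N}`. -/
theorem main (ε : ℝ) (hε : 0 < ε) (hε1 : ε ≤ 1) : ∃ C : ℝ, 1 ≤ C ∧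
    ∀ a b : ℕ, 0 < a → 0 < b → a.Coprime b →
      Real.log ((a + b : ℕ) : ℝ) ≤
        C * ((∏ q ∈ (a * b * (a + b)).primeFactors, q : ℕ) : ℝ) ^ ε :=
  Pool.Agent.Helper98.ZD.main ε hε hε1

end Pool.ZD
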