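import Pool.Agent.Helper57.ZD.Defs

/-! Project ZD, piece Poly0: binomials as polynomials, the simplex. -/

set_option autoImplicit false

namespace Pool.ZD

open Finset Pool.Agent.Helper90.ZD MvPolynomial

/-- The polynomial of `bn a`. -/
theorem bn_poly {r : ℕ} (a : Fin r → ℕ) : ∃ p : MvPolynomial (Fin r) ℂ,
    p.totalDegree ≤ ∑ i, a i ∧
    ∀ c : Fin (r + 1) → ℕ, eval (fun i => (c i.succ : ℂ)) p = ((bn a c : ℕ) : ℂ) := by
  refine ⟨∏ i : Fin r, (C (((a i).factorial : ℂ)⁻¹) * ∏ k ∈ range (a i), (X i - C (k : ℂ))),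
    ?_, ?_⟩
  · refine (totalDegree_finsetProd _ _).trans (Finset.sum_le_sum fun i _ => ?_)
    refine (totalDegree_mul _ _).trans ?_
    rw [totalDegree_C, zero_add]
    refine (totalDegree_finsetProd _ _).trans ?_
    calc ∑ k ∈ range (a i), (X i - C (k : ℂ) : MvPolynomial (Fin r) ℂ).totalDegree
        ≤ ∑ _k ∈ range (a i), 1 := by
          refine Finset.sum_le_sum fun k _ => ?_
          refine (totalDegree_sub _ _).trans ?_
          rw [totalDegree_X, totalDegree_C]
          simp
      _ = a i := by simp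
  · intro c
    rw [map_prod, bn, Nat.cast_prod]
    refine Finset.prod_congr rfl fun i _ => ?_
    rw [map_mul, map_prod, eval_C]
    have h1 : ∏ k ∈ range (a i), eval (fun i => (c i.succ : ℂ)) (X i - C (k : ℂ)) =
        ((c i.succ).descFactorial (a i) : ℂ) := by
      rw [← descPochhammer_eval_eq_descFactorial, descPochhammer_eval_eq_prod_range]
      exact Finset.prod_congr rfl fun k _ => by simp
    rw [h1, Nat.descFactorial_eq_factorial_mul_choose, Nat.cast_mul, ← mul_assoc,
      inv_mul_cancel₀ (by exact_mod_cast (Nat.factorial_ne_zero _)), one_mul]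

/-- A relation between the `bn a` is trivial: look at a minimal `a` with `x a ≠ 0`. -/
theorem bn_indep {r X : ℕ} (x : (Fin r → ℕ) → ℂ)
    (h : ∀ c : Fin (r + 1) → ℕ, ∑ a ∈ JJ r X, x a * ((bn a c : ℕ) : ℂ) = 0) :
    ∀ a ∈ JJ r X, x a = 0 := by
  classical
  by_contra hne
  push Not at hne
  obtain ⟨a0, ha0, hx0⟩ := hne
  obtain ⟨a, ha, hmin⟩ := Finset.exists_min_image ((JJ r X).filter fun a => x a ≠ 0)
    (fun a => ∑ i, a i) ⟨a0, by rw [mem_filter]; exact ⟨ha0, hx0⟩⟩
  rw [mem_filter] at ha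
  have h1 := h (Fin.cons 0 a)
  rw [Finset.sum_eq_single a] at h1
  · have h2 : bn a (Fin.cons 0 a : Fin (r + 1) → ℕ) = 1 := by
      unfold bn
      exact Finset.prod_eq_one fun i _ => by rw [Fin.cons_succ, Nat.choose_self]
    rw [h2, Nat.cast_one, mul_one] at h1
    exact ha.2 h1
  · intro b hb hba
    by_cases hxb : x b = 0
    · rw [hxb, zero_mul]
    · have h2 := hmin b (by rw [mem_filter]; exact ⟨hb, hxb⟩)
      have h3 : ∃ i, a i < b i := by
        by_contra hcon
        push Not at hcon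
        have h4 : ∑ i, b i = ∑ i, a i := le_antisymm (Finset.sum_le_sum fun i _ => hcon i) h2
        apply hba
        funext i
        exact ((Finset.sum_eq_sum_iff_of_le fun i _ => hcon i).1 h4) i (mem_univ i)
      obtain ⟨i, hi⟩ := h3
      have h5 : bn b (Fin.cons 0 a : Fin (r + 1) → ℕ) = 0 := by
        unfold bn
        exact Finset.prod_eq_zero (mem_univ i) (by rw [Fin.cons_succ]; exact Nat.choose_eq_zero_of_lt hi)
      rw [h5, Nat.cast_zero, mul_zero]
  · intro hcon
    exact absurd ha.1 hcon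

/-- A polynomial of degree `≤ d` vanishing at the points of `ℕ ^ r` with sum `≤ d` is zero. -/
theorem simplex_zero {r d : ℕ} (p : MvPolynomial (Fin r) ℂ) (hp : p.totalDegree ≤ d)
    (h : ∀ c : Fin r → ℕ, ∑ i, c i ≤ d → eval (fun i => (c i : ℂ)) p = 0) : p = 0 := by
  classical
  by_contra hne
  obtain ⟨t, ht, hdeg⟩ : ∃ t ∈ p.support, p.totalDegree = t.degree := by
    have h1 : p.support.Nonempty := support_nonempty.2 hne
    obtain ⟨t, ht, h2⟩ := Finset.exists_mem_eq_sup p.support h1 (fun m => m.sum fun _ e => e)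
    refine ⟨t, ht, ?_⟩
    rw [MvPolynomial.totalDegree, h2, Finsupp.degree]
    rfl
  obtain ⟨s, hs, hev⟩ := combinatorial_nullstellensatz_exists_eval_nonzero p t
    (mem_support_iff.1 ht) hdeg (fun i => (range (t i + 1)).image fun k : ℕ => (k : ℂ)) (by
      intro i
      rw [Finset.card_image_of_injective _ Nat.cast_injective, card_range]
      exact Nat.lt_succ_self _)
  have h1 : ∀ i, ∃ k : ℕ, k ≤ t i ∧ (k : ℂ) = s i := by
    intro i
    obtain ⟨k, hk, hks⟩ := Finset.mem_image.1 (hs i)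
    exact ⟨k, by rw [mem_range] at hk; omega, hks⟩
  choose k hk hks using h1
  apply hev
  have h2 : s = fun i => (k i : ℂ) := by
    funext i
    exact (hks i).symm
  rw [h2]
  apply h
  calc ∑ i, k i ≤ ∑ i, t i := Finset.sum_le_sum fun i _ => hk i
    _ = t.degree := by rw [Finsupp.degree_eq_sum]
    _ ≤ d := hdeg ▸ hp

end Pool.ZD
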